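import Pool.Agent.H51.QT.Iface
import Pool.Agent.H71.Patch.Local

/-!
# QT.Deg : number theory in the ring of all algebraic integers
-/

set_option autoImplicit false

open scoped Pointwise NumberField
open Matrix IsDedekindDomain Pool.Agent.H71.Patch Pool.Agent.H51.QT

namespace Pool.Agent.H19.QT

variable {F : Type} [Field F] [NumberField F] {K : IntermediateField F (AlgebraicClosure F)}

theorem numberField_of (K : IntermediateField F (AlgebraicClosure F)) [FiniteDimensional F K] :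
    NumberField K := NumberField.of_module_finite F K

theorem incl_val (K : IntermediateField F (AlgebraicClosure F)) (x : 𝓞 K) :
    ((incl K x : Zbar F) : AlgebraicClosure F) = ((x : K) : AlgebraicClosure F) := rfl

theorem incl_inj (K : IntermediateField F (AlgebraicClosure F)) : Function.Injective (incl K) := by
  intro x y h
  have h1 := congrArg (Subtype.val) h
  rw [incl_val, incl_val] at h1
  exact NumberField.RingOfIntegers.ext (Subtype.ext h1)

theorem incl_algebraMap (K : IntermediateField F (AlgebraicClosure F)) (x : 𝓞 F) :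
    incl K (algebraMap (𝓞 F) (𝓞 K) x) = algebraMap (𝓞 F) (Zbar F) x := rfl

theorem smul_incl {g : GalK F} (hg : g ∈ K.fixingSubgroup) (x : 𝓞 K) :
    g • incl K x = incl K x := by
  apply Subtype.ext
  exact (K.mem_fixingSubgroup_iff g).1 hg _ (x : K).2

theorem incl_integral (K : IntermediateField F (AlgebraicClosure F)) : (incl K).IsIntegral := by
  intro x
  have h1 : IsIntegral (𝓞 F) x := IsIntegralClosure.isIntegral (𝓞 F) (AlgebraicClosure F) x
  obtain ⟨p, hp, hx⟩ := h1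
  refine ⟨p.map (algebraMap (𝓞 F) (𝓞 K)), hp.map _, ?_⟩
  rw [Polynomial.eval₂_map]
  exact hx

theorem over_exists (K : IntermediateField F (AlgebraicClosure F)) [FiniteDimensional F K]
    {u : HeightOneSpectrum (𝓞 F)} {Q : Ideal (Zbar F)} (h : Above u Q) :
    ∃ v : HeightOneSpectrum (𝓞 K), Over K v Q := by
  have hQ := h.1
  have h1 : (below K Q).IsPrime := Ideal.comap_isPrime _ _
  refine ⟨⟨below K Q, h1, ?_⟩, h.1, rfl⟩
  obtain ⟨x, hx, hx0⟩ := Submodule.exists_mem_ne_zero_of_ne_bot u.ne_bot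
  intro h2
  have h3 : algebraMap (𝓞 F) (𝓞 K) x ∈ below K Q := by
    show incl K (algebraMap (𝓞 F) (𝓞 K) x) ∈ Q
    rw [incl_algebraMap]
    have h4 : x ∈ Q.under (𝓞 F) := by rw [h.2]; exact hx
    exact h4
  rw [h2, Ideal.mem_bot] at h3
  have h5 : algebraMap (𝓞 F) (Zbar F) x = 0 := by
    rw [← incl_algebraMap K, h3, map_zero]
  exact hx0 ((FaithfulSMul.algebraMap_injective (𝓞 F) (Zbar F)) (by rw [h5, map_zero]))

theorem above_exists [FiniteDimensional F K] {v : HeightOneSpectrum (𝓞 K)} {Q : Ideal (Zbar F)}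
    (h : Over K v Q) : ∃ u : HeightOneSpectrum (𝓞 F), Above u Q := by
  have hQ := h.1
  refine ⟨⟨Q.under (𝓞 F), inferInstance, ?_⟩, h.1, rfl⟩
  obtain ⟨x, hx, hx0⟩ := Submodule.exists_mem_ne_zero_of_ne_bot v.ne_bot
  have h1 : incl K x ∈ Q := by
    have : x ∈ below K Q := by rw [h.2]; exact hx
    exact this
  exact Ideal.comap_ne_bot_of_integral_mem (fun h2 => hx0 (incl_inj K (by rw [h2, map_zero]))) h1
    (IsIntegralClosure.isIntegral (𝓞 F) (AlgebraicClosure F) _)

theorem exists_over [FiniteDimensional F K] (v : HeightOneSpectrum (𝓞 K)) :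
    ∃ Q : Ideal (Zbar F), Over K v Q := by
  letI : Algebra (𝓞 K) (Zbar F) := (incl K).toAlgebra
  haveI : Algebra.IsIntegral (𝓞 K) (Zbar F) := ⟨incl_integral K⟩
  haveI := v.isPrime
  obtain ⟨Q, -, h1, h2⟩ := Ideal.exists_ideal_over_prime_of_isIntegral v.asIdeal (⊥ : Ideal (Zbar F))
    (by
      intro x hx
      have h3 : incl K x = 0 := hx
      have h4 : x = 0 := incl_inj K (by rw [h3, map_zero])
      rw [h4]; exact Submodule.zero_mem _)
  exact ⟨Q, h1, h2⟩

theorem mem_u {u : HeightOneSpectrum (𝓞 F)} {Q : Ideal (Zbar F)} (hu : Above u Q) (x : 𝓞 F) :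
    x ∈ u.asIdeal ↔ algebraMap (𝓞 F) (Zbar F) x ∈ Q := by
  rw [← hu.2]; rfl

theorem mem_v {v : HeightOneSpectrum (𝓞 K)} {Q : Ideal (Zbar F)} (hv : Over K v Q) (x : 𝓞 K) :
    x ∈ v.asIdeal ↔ incl K x ∈ Q := by
  rw [← hv.2]; rfl

/-- the prime number `l` -/
theorem mem_iff [FiniteDimensional F K] {u : HeightOneSpectrum (𝓞 F)}
    {v : HeightOneSpectrum (𝓞 K)} {Q : Ideal (Zbar F)} (hu : Above u Q) (hv : Over K v Q) (l : ℕ) :
    (l : 𝓞 F) ∈ u.asIdeal ↔ (l : 𝓞 K) ∈ v.asIdeal := by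
  rw [mem_u hu, mem_v hv, map_natCast, map_natCast]

theorem acts_ne_zero {Q : Ideal (Zbar F)} (hQ : Q.IsPrime) {n : ℕ} {g : GalK F} (h : Acts Q g n) :
    n ≠ 0 := by
  rintro rfl
  have h1 := h 0
  rw [smul_zero, pow_zero, zero_sub, neg_mem_iff] at h1
  exact hQ.ne_top ((Ideal.eq_top_iff_one _).2 h1)

theorem acts_dec {Q : Ideal (Zbar F)} (hQ : Q.IsPrime) {n : ℕ} {g : GalK F} (h : Acts Q g n) :
    g ∈ Dec Q := by
  have hn := acts_ne_zero hQ h
  rw [MulAction.mem_stabilizer_iff]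
  have h1 : ∀ x, g • x ∈ Q ↔ x ∈ Q := by
    intro x
    constructor
    · intro hx
      have h2 := Q.sub_mem hx (h x)
      rw [sub_sub_cancel] at h2
      exact hQ.mem_of_pow_mem _ h2
    · intro hx
      have h2 := Q.add_mem (h x) (Q.pow_mem_of_mem hx n (Nat.pos_of_ne_zero hn))
      rwa [sub_add_cancel] at h2
  ext x
  rw [Ideal.mem_pointwise_smul_iff_inv_smul_mem, ← h1 (g⁻¹ • x), smul_inv_smul]

theorem dec_mem {Q : Ideal (Zbar F)} {g : GalK F} (h : g ∈ Dec Q) {x : Zbar F} (hx : x ∈ Q) :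
    g • x ∈ Q := by
  have h3 : g • x ∈ g • Q := Ideal.smul_mem_pointwise_smul _ _ _ hx
  rwa [MulAction.mem_stabilizer_iff.1 h] at h3

theorem acts_mul {Q : Ideal (Zbar F)} (hQ : Q.IsPrime) {m n : ℕ} {g h : GalK F}
    (hg : Acts Q g m) (hh : Acts Q h n) : Acts Q (g * h) (m * n) := by
  intro x
  have h1 := dec_mem (acts_dec hQ hg) (hh x)
  have h2 := hg (x ^ n)
  rw [mul_smul]
  have h3 : g • h • x - x ^ (m * n) = g • (h • x - x ^ n) + (g • x ^ n - (x ^ n) ^ m) := by
    rw [smul_sub, ← pow_mul, mul_comm m n]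
    ring
  rw [h3]
  exact Q.add_mem h1 h2

theorem acts_inv_mul {Q : Ideal (Zbar F)} (hQ : Q.IsPrime) {n : ℕ} {g h : GalK F}
    (hg : Acts Q g n) (hh : Acts Q h n) : Acts Q (g⁻¹ * h) 1 := by
  intro x
  have h1 : h • x - g • x ∈ Q := by
    have := Q.sub_mem (hh x) (hg x)
    rwa [sub_sub_sub_cancel_right] at this
  have h2 := dec_mem (inv_mem (acts_dec hQ hg)) h1
  rw [smul_sub, inv_smul_smul] at h2
  rw [mul_smul, pow_one]
  exact h2

theorem acts_conj {Q : Ideal (Zbar F)} {n : ℕ} {g : GalK F} (c : GalK F) (h : Acts Q g n) :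
    Acts (c • Q) (c * g * c⁻¹) n := by
  intro x
  have h1 : (c * g * c⁻¹) • x - x ^ n = c • (g • (c⁻¹ • x) - (c⁻¹ • x) ^ n) := by
    rw [smul_sub, smul_pow', smul_inv_smul, mul_smul, mul_smul]
  rw [h1]
  exact Ideal.smul_mem_pointwise_smul _ _ _ (h _)

theorem acts_frob {u : HeightOneSpectrum (𝓞 F)} {Q : Ideal (Zbar F)} (hu : Above u Q)
    {φ : GalK F} : IsArithFrobAt (𝓞 F) φ Q ↔ Acts Q φ (nm u) := by
  have h1 : Nat.card (𝓞 F ⧸ Q.under (𝓞 F)) = nm u := by rw [hu.2]; rfl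
  unfold Acts
  rw [← h1]
  exact Iff.rfl

/-- a nonzero algebraic integer is contained in primes above finitely many primes of `F` only -/
theorem finite_elt {D : Zbar F} (hD : D ≠ 0) :
    {u : HeightOneSpectrum (𝓞 F) | ∃ Q, Above u Q ∧ D ∈ Q}.Finite := by
  have h1 : (Ideal.span {D}).under (𝓞 F) ≠ ⊥ :=
    Ideal.comap_ne_bot_of_integral_mem hD (Ideal.mem_span_singleton_self D)
      (IsIntegralClosure.isIntegral (𝓞 F) (AlgebraicClosure F) _)
  refine (Ideal.finite_factors h1).subset ?_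
  rintro u ⟨Q, hQ, hDQ⟩
  rw [Set.mem_setOf_eq, Ideal.dvd_iff_le, ← hQ.2]
  exact Ideal.comap_mono ((Ideal.span_singleton_le_iff_mem _).2 hDQ)

theorem finite_l (l : ℕ) (hl : l ≠ 0) :
    {u : HeightOneSpectrum (𝓞 F) | (l : 𝓞 F) ∈ u.asIdeal}.Finite := by
  have h1 : Ideal.span {(l : 𝓞 F)} ≠ 0 := by
    rw [Ne, Ideal.zero_eq_bot, Ideal.span_singleton_eq_bot]
    exact_mod_cast hl
  refine (Ideal.finite_factors h1).subset ?_
  intro u hu
  rw [Set.mem_setOf_eq, Ideal.dvd_iff_le]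
  exact (Ideal.span_singleton_le_iff_mem _).2 hu

theorem under_eq {u : HeightOneSpectrum (𝓞 F)} {v : HeightOneSpectrum (𝓞 K)} {Q : Ideal (Zbar F)}
    (hu : Above u Q) (hv : Over K v Q) : u.asIdeal = v.asIdeal.under (𝓞 F) := by
  ext x
  rw [mem_u hu, Ideal.under_def, Ideal.mem_comap, mem_v hv, incl_algebraMap]

/-- only finitely many primes are bad or ramified in a given extension -/
theorem finite_bad [FiniteDimensional F K] (n : Ideal (𝓞 K)) (hn : n ≠ ⊥) :
    {u : HeightOneSpectrum (𝓞 F) | ∃ v Q, Above u Q ∧ Over K v Q ∧ n ≤ v.asIdeal}.Finite := by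
  haveI := numberField_of K
  have h1 : {v : HeightOneSpectrum (𝓞 K) | v.asIdeal ∣ n}.Finite := Ideal.finite_factors hn
  have h2 : (⋃ v ∈ {v : HeightOneSpectrum (𝓞 K) | v.asIdeal ∣ n},
      {u : HeightOneSpectrum (𝓞 F) | u.asIdeal = v.asIdeal.under (𝓞 F)}).Finite := by
    refine Set.Finite.biUnion h1 fun v _ => Set.Subsingleton.finite ?_
    intro u hu u' hu'
    exact HeightOneSpectrum.ext (Eq.trans hu (Eq.symm hu'))
  refine h2.subset ?_
  rintro u ⟨v, Q, hu, hv, hle⟩
  refine Set.mem_iUnion₂.2 ⟨v, Ideal.dvd_iff_le.2 hle, under_eq hu hv⟩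

theorem finite_ram (M : IntermediateField F (AlgebraicClosure F)) [FiniteDimensional F M] :
    {u : HeightOneSpectrum (𝓞 F) | ∃ Q, Above u Q ∧ ∃ g, Acts Q g 1 ∧
      g ∉ M.fixingSubgroup}.Finite := by
  classical
  haveI := numberField_of M
  -- for every integer `x`, finitely many conjugates
  have key : ∀ x : Zbar F, {u : HeightOneSpectrum (𝓞 F) | ∃ Q, Above u Q ∧ ∃ g, Acts Q g 1 ∧
      g • x ≠ x}.Finite := by
    intro x
    have hfin : (MulAction.orbit (GalK F) x).Finite := by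
      have h1 : IsIntegral F (x : AlgebraicClosure F) := Algebra.IsIntegral.isIntegral _
      have h2 : ((minpoly F (x : AlgebraicClosure F)).rootSet (AlgebraicClosure F)).Finite :=
        Polynomial.rootSet_finite _ _
      refine Set.Finite.of_finite_image (f := Subtype.val) (h2.subset ?_)
        Subtype.val_injective.injOn
      rintro _ ⟨_, ⟨g, rfl⟩, rfl⟩
      rw [Polynomial.mem_rootSet]
      refine ⟨minpoly.ne_zero h1, ?_⟩
      have h3 : (((g • x : Zbar F)) : AlgebraicClosure F) = g (x : AlgebraicClosure F) := rfl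
      show Polynomial.aeval (((g • x : Zbar F)) : AlgebraicClosure F) _ = 0
      rw [h3, ← minpoly.algEquiv_eq g (x : AlgebraicClosure F)]
      exact minpoly.aeval _ _
    have h4 : (⋃ y ∈ MulAction.orbit (GalK F) x, {u : HeightOneSpectrum (𝓞 F) |
        y - x ≠ 0 ∧ ∃ Q, Above u Q ∧ y - x ∈ Q}).Finite := by
      refine Set.Finite.biUnion hfin fun y _ => ?_
      by_cases hy : y - x = 0
      · refine Set.Finite.subset Set.finite_empty ?_
        rintro u ⟨h5, -⟩
        exact (h5 hy).elim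
      · exact (finite_elt hy).subset fun u hu => hu.2
    refine h4.subset ?_
    rintro u ⟨Q, hQ, g, hg, hgx⟩
    refine Set.mem_iUnion₂.2 ⟨g • x, ⟨g, rfl⟩, sub_ne_zero.2 hgx, Q, hQ, ?_⟩
    have := hg x
    rwa [pow_one] at this
  have h6 : (⋃ i, {u : HeightOneSpectrum (𝓞 F) | ∃ Q, Above u Q ∧ ∃ g, Acts Q g 1 ∧
      g • incl M (NumberField.RingOfIntegers.basis M i) ≠
        incl M (NumberField.RingOfIntegers.basis M i)}).Finite :=
    Set.finite_iUnion fun i => key _
  refine h6.subset ?_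
  rintro u ⟨Q, hQ, g, hg, hgM⟩
  by_contra hcon
  apply hgM
  rw [IntermediateField.mem_fixingSubgroup_iff]
  have h7 : ∀ i, g ((NumberField.integralBasis M i : M) : AlgebraicClosure F) =
      ((NumberField.integralBasis M i : M) : AlgebraicClosure F) := by
    intro i
    by_contra h8
    apply hcon
    refine Set.mem_iUnion.2 ⟨i, Q, hQ, g, hg, fun h9 => h8 ?_⟩
    rw [NumberField.integralBasis_apply]
    exact congrArg Subtype.val h9
  intro y hy
  have h10 := (NumberField.integralBasis M).sum_repr ⟨y, hy⟩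
  have h11 : y = ∑ i, (algebraMap ℚ (AlgebraicClosure F)
      ((NumberField.integralBasis M).repr ⟨y, hy⟩ i)) *
        ((NumberField.integralBasis M i : M) : AlgebraicClosure F) := by
    have := congrArg (Subtype.val) h10
    refine Eq.trans (Eq.symm this) ?_
    rw [AddSubmonoidClass.coe_finsetSum]
    refine Finset.sum_congr rfl fun i _ => ?_
    rw [Algebra.smul_def]
    rfl
  rw [h11, map_sum]
  refine Finset.sum_congr rfl fun i _ => ?_
  rw [map_mul, h7]
  congr 1
  simp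

theorem nm_pow [FiniteDimensional F K] {u : HeightOneSpectrum (𝓞 F)}
    {v : HeightOneSpectrum (𝓞 K)} {Q : Ideal (Zbar F)} (hu : Above u Q) (hv : Over K v Q) :
    ∃ f : ℕ, 0 < f ∧ nm v = nm u ^ f := by
  haveI := numberField_of K
  have hl : v.asIdeal.LiesOver u.asIdeal := ⟨under_eq hu hv⟩
  haveI hum : u.asIdeal.IsMaximal := u.isMaximal
  letI : Field (𝓞 F ⧸ u.asIdeal) := Ideal.Quotient.field _
  have : v.asIdeal ≠ ⊤ := v.isPrime.ne_top
  haveI : Nontrivial (𝓞 K ⧸ v.asIdeal) := Ideal.Quotient.nontrivial_iff.2 this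
  refine ⟨Module.finrank (𝓞 F ⧸ u.asIdeal) (𝓞 K ⧸ v.asIdeal), Module.finrank_pos, ?_⟩
  exact Module.natCard_eq_pow_finrank

theorem nm_finite {R : Type} [Field R] [NumberField R] (v : HeightOneSpectrum (𝓞 R)) :
    Finite (𝓞 R ⧸ v.asIdeal) :=
  Ideal.finiteQuotientOfFreeOfNeBot _ v.ne_bot

theorem one_lt_nm {R : Type} [Field R] [NumberField R] (v : HeightOneSpectrum (𝓞 R)) :
    1 < nm v := by
  haveI := nm_finite v
  haveI : Nontrivial (𝓞 R ⧸ v.asIdeal) := Ideal.Quotient.nontrivial_iff.2 v.isPrime.ne_top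
  exact Finite.one_lt_card

/-- the elements of the residue field of `v` are fixed by a power map -/
theorem acts_pow [FiniteDimensional F K] {u : HeightOneSpectrum (𝓞 F)}
    {v : HeightOneSpectrum (𝓞 K)} {Q : Ideal (Zbar F)} (hu : Above u Q) (hv : Over K v Q)
    (g : GalK F) (hg : g ∈ K.fixingSubgroup) (k : ℕ) (h : Acts Q g (nm u ^ k)) :
    ∃ m : ℕ, nm u ^ k = nm v ^ m := by
  haveI := numberField_of K
  obtain ⟨f, hf, hnm⟩ := nm_pow hu hv
  have hu1 := one_lt_nm u
  haveI hvm : v.asIdeal.IsMaximal := v.isMaximal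
  letI : Field (𝓞 K ⧸ v.asIdeal) := Ideal.Quotient.field _
  haveI := nm_finite v
  have h1 : ∀ x : 𝓞 K ⧸ v.asIdeal, x ^ (nm u ^ k) = x := by
    intro x
    obtain ⟨y, rfl⟩ := Ideal.Quotient.mk_surjective x
    rw [← map_pow, eq_comm, Ideal.Quotient.eq, mem_v hv]
    have h2 := h (incl K y)
    rw [smul_incl hg] at h2
    rw [map_sub, map_pow]
    exact h2
  rcases Nat.eq_zero_or_pos k with hk | hk
  · exact ⟨0, by rw [hk, pow_zero, pow_zero]⟩
  have hpos : 0 < nm u ^ k := pow_pos (by omega) k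
  obtain ⟨ζ, hζ⟩ := IsCyclic.exists_generator (α := (𝓞 K ⧸ v.asIdeal)ˣ)
  have h3 : orderOf ζ = nm v - 1 := by
    rw [orderOf_eq_card_of_forall_mem_zpowers hζ, Nat.card_units]
    rfl
  have h4 : ζ ^ (nm u ^ k - 1) = 1 := by
    have h5 : ζ * ζ ^ (nm u ^ k - 1) = ζ := by
      rw [← pow_succ', Nat.sub_add_cancel hpos]
      ext1
      rw [Units.val_pow_eq_pow_val]
      exact h1 _
    exact mul_eq_left.1 h5
  have h6 : nm u ^ f - 1 ∣ nm u ^ k - 1 := by
    rw [← hnm, ← h3]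
    exact orderOf_dvd_of_pow_eq_one h4
  have h7 : f ∣ k := by
    have h8 := Nat.pow_sub_one_gcd_pow_sub_one (nm u) f k
    rw [Nat.gcd_eq_left h6] at h8
    have h9 : nm u ^ f = nm u ^ f.gcd k := by
      have h10 : 0 < nm u ^ f := pow_pos (by omega) f
      have h11 : 0 < nm u ^ f.gcd k := pow_pos (by omega) _
      omega
    have h12 := Nat.pow_right_injective hu1 h9
    have h12' : f = f.gcd k := h12
    rw [h12']
    exact Nat.gcd_dvd_right f k
  obtain ⟨m, rfl⟩ := h7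
  exact ⟨m, by rw [hnm, ← pow_mul]⟩

/-- the Galois group of `K` acts with invariants `𝓞 K` on the ring of all algebraic integers -/
theorem invariant (K : IntermediateField F (AlgebraicClosure F)) :
    letI : Algebra (𝓞 K) (Zbar F) := (incl K).toAlgebra
    Algebra.IsInvariant (𝓞 K) (Zbar F) K.fixingSubgroup := by
  letI : Algebra (𝓞 K) (Zbar F) := (incl K).toAlgebra
  constructor
  intro b hb
  have h1 : (b : AlgebraicClosure F) ∈ IntermediateField.fixedField K.fixingSubgroup := by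
    rw [IntermediateField.mem_fixedField_iff]
    intro g hg
    exact congrArg Subtype.val (hb ⟨g, hg⟩)
  rw [InfiniteGalois.fixedField_fixingSubgroup] at h1
  have h2 : IsIntegral ℤ (⟨b, h1⟩ : K) := by
    have h3 : IsIntegral (𝓞 F) (b : AlgebraicClosure F) := b.2
    have h4 : IsIntegral ℤ (b : AlgebraicClosure F) := isIntegral_trans _ h3
    have h5 : ((⟨b, h1⟩ : K) : AlgebraicClosure F) = algebraMap K (AlgebraicClosure F) ⟨b, h1⟩ := rfl
    rw [← isIntegral_algebraMap_iff (FaithfulSMul.algebraMap_injective K (AlgebraicClosure F))]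
    exact h4
  exact ⟨⟨⟨b, h1⟩, h2⟩, rfl⟩

/-- existence of Frobenius elements of `K` -/
theorem exists_frob [FiniteDimensional F K] {v : HeightOneSpectrum (𝓞 K)} {Q : Ideal (Zbar F)}
    (hv : Over K v Q) : ∃ g ∈ K.fixingSubgroup, Acts Q g (nm v) := by
  haveI := numberField_of K
  have hQ := hv.1
  letI alg : Algebra (𝓞 K) (Zbar F) := (incl K).toAlgebra
  haveI inv : Algebra.IsInvariant (𝓞 K) (Zbar F) K.fixingSubgroup := invariant K
  let _ : TopologicalSpace (Zbar F) := ⊥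
  have _ : DiscreteTopology (Zbar F) := ⟨rfl⟩
  have hc : ContinuousSMul (GalK F) (Zbar F) := by
    rw [continuousSMul_iff_stabilizer_isOpen]
    intro x
    have h1 := stabilizer_isOpen_of_isIntegral (K := F) (L := AlgebraicClosure F)
      (x : AlgebraicClosure F)
    convert h1 using 1
    ext g
    simp only [SetLike.mem_coe, MulAction.mem_stabilizer_iff]
    constructor
    · intro h
      exact congrArg Subtype.val h
    · intro h
      exact Subtype.ext h
  have hC : IsClosed (K.fixingSubgroup : Set (GalK F)) := K.fixingSubgroup_isClosed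
  have hCc : CompactSpace K.fixingSubgroup := isCompact_iff_compactSpace.1 hC.isCompact
  have hCs : ContinuousSMul K.fixingSubgroup (Zbar F) := ⟨by
    have h2 : Continuous fun p : K.fixingSubgroup × Zbar F => ((p.1 : GalK F), p.2) := by fun_prop
    exact Continuous.comp (g := fun p : GalK F × Zbar F => p.1 • p.2) continuous_smul h2⟩
  have hsc : SMulCommClass K.fixingSubgroup (𝓞 K) (Zbar F) := ⟨fun c a b => by
    have h2 : c • (incl K a) = incl K a := smul_incl c.2 a
    rw [Algebra.smul_def, Algebra.smul_def, smul_mul']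
    congr 1⟩
  haveI hvm : v.asIdeal.IsMaximal := v.isMaximal
  haveI : Q.LiesOver v.asIdeal := ⟨hv.2.symm⟩
  haveI : Algebra.IsIntegral (𝓞 K) (Zbar F) := ⟨incl_integral K⟩
  haveI hQm : Q.IsMaximal := Ideal.isMaximal_of_isIntegral_of_isMaximal_comap Q (by
    have : Ideal.comap (algebraMap (𝓞 K) (Zbar F)) Q = v.asIdeal := hv.2
    rw [this]; exact hvm)
  letI : Field (𝓞 K ⧸ v.asIdeal) := Ideal.Quotient.field _
  letI : Field (Zbar F ⧸ Q) := Ideal.Quotient.field _
  haveI := nm_finite v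
  obtain ⟨p, hp⟩ := CharP.exists (𝓞 K ⧸ v.asIdeal)
  cases nonempty_fintype (𝓞 K ⧸ v.asIdeal)
  obtain ⟨k, hpp, hk⟩ := FiniteField.card (𝓞 K ⧸ v.asIdeal) p
  haveI := CharP.of_ringHom_of_ne_zero (algebraMap (𝓞 K ⧸ v.asIdeal) (Zbar F ⧸ Q)) p hpp.ne_zero
  haveI : ExpChar (Zbar F ⧸ Q) p := .prime hpp
  haveI : Algebra.IsIntegral (𝓞 K ⧸ v.asIdeal) (Zbar F ⧸ Q) := inferInstance
  haveI : Algebra.IsAlgebraic (𝓞 K ⧸ v.asIdeal) (Zbar F ⧸ Q) := Algebra.IsIntegral.isAlgebraic
  haveI : PerfectField (Zbar F ⧸ Q) :=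
    Algebra.IsAlgebraic.perfectField (K := 𝓞 K ⧸ v.asIdeal)
  haveI : PerfectRing (Zbar F ⧸ Q) p := PerfectField.toPerfectRing p
  let l : (Zbar F ⧸ Q) ≃ₐ[𝓞 K ⧸ v.asIdeal] Zbar F ⧸ Q :=
    { __ := iterateFrobeniusEquiv (Zbar F ⧸ Q) p k,
      commutes' r := by
        dsimp [iterateFrobenius_def]
        rw [← map_pow, ← hk, FiniteField.pow_card] }
  obtain ⟨σ, hσ⟩ := Ideal.Quotient.stabilizerHom_surjective_of_profinite
    (G := K.fixingSubgroup) v.asIdeal Q l
  refine ⟨σ.1.1, σ.1.2, fun x ↦ ?_⟩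
  have hnm : nm v = p ^ (k : ℕ) := by
    rw [← hk]; exact Nat.card_eq_fintype_card
  rw [← Ideal.Quotient.eq, hnm]
  exact DFunLike.congr_fun hσ (Ideal.Quotient.mk Q x)

end Pool.Agent.H19.QT
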