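import Pool.Agent.H19.QT.Bex

/-!
# QT.Adm : admissible base changes exist (modules `adm_pos` and `adm_loc`)
-/

set_option autoImplicit false

open scoped Pointwise NumberField IntermediateField
open Matrix IsDedekindDomain Pool.Agent.H71.Patch Pool.Agent.H51.QT Pool.Agent.H89.IP

namespace Pool.Agent.H19.QT

variable {F : Type} [Field F] [NumberField F] {K : IntermediateField F (AlgebraicClosure F)}

/-- the degree of `F(√b)` -/
theorem finrank_adjoin {b : 𝓞 F} {s : Zbar F} (hs : s ^ 2 = al F b) {g0 : GalK F}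
    (hg0 : g0 • s = -s) (hsn : s ≠ -s) :
    Module.finrank F (F⟮(s : AlgebraicClosure F)⟯) = 2 := by
  have hfd := finite_adjoin s
  rw [IntermediateField.finrank_eq_fixingSubgroup_index, Subgroup.index_eq_two_iff]
  refine ⟨g0, fun x => ?_⟩
  rw [mem_fix, mem_fix, mul_smul, hg0, smul_neg]
  rcases smul_sqrt hs x with h | h
  · exact Or.inr ⟨h, fun h1 => hsn (by rw [h] at h1; exact h1.symm)⟩
  · exact Or.inl ⟨by rw [h, neg_neg], fun h1 => hsn (h1.symm.trans h)⟩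

/-- if the decomposition group of one prime above `u` lies in the Galois group of the quadratic
extension `K`, so do all -/
theorem dec_le (hK : Module.finrank F K = 2) {u : HeightOneSpectrum (𝓞 F)}
    {Q Q' : Ideal (Zbar F)} (hQ : Above u Q) (hQ' : Above u Q')
    (h : ∀ g ∈ Dec Q, g ∈ K.fixingSubgroup) : ∀ g ∈ Dec Q', g ∈ K.fixingSubgroup := by
  have hfd : FiniteDimensional F K := FiniteDimensional.of_finrank_pos (by rw [hK]; norm_num)
  have hidx : K.fixingSubgroup.index = 2 := by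
    rw [← IntermediateField.finrank_eq_fixingSubgroup_index, hK]
  have hnorm : K.fixingSubgroup.Normal := Subgroup.normal_of_index_eq_two hidx
  obtain ⟨x, rfl⟩ := above_smul hQ hQ'
  intro g hg
  have h1 : x⁻¹ * g * x ∈ Dec Q := by
    rw [MulAction.mem_stabilizer_iff] at hg ⊢
    rw [mul_smul, mul_smul, hg, inv_smul_smul]
  have h2 := hnorm.conj_mem _ (h _ h1) x
  have h3 : x * (x⁻¹ * g * x) * x⁻¹ = g := by group
  rwa [h3] at h2

/-- the primes of `F` below the primes of `K` with odd central character -/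
def S0 (𝒦 : Known K) (θ : 𝒦.Eig) : Set (HeightOneSpectrum (𝓞 F)) :=
  {u | ∃ w ∈ 𝒦.odd θ, ∃ Q, Above u Q ∧ Over K w Q}

theorem core (𝒦 : Known K) (θ : 𝒦.Eig) (M : IntermediateField F (AlgebraicClosure F))
    (hM : FiniteDimensional F M) (v0 : HeightOneSpectrum (𝓞 F)) (P0 : 𝓞 F → Prop)
    (hP0 : Appr v0 P0)
    (hS0 : v0 ∈ S0 𝒦 θ → ∀ b, P0 b → ∀ Q, Above v0 Q → ∀ s : Zbar F, s ^ 2 = al F b →
      ∃ g ∈ K.fixingSubgroup, g ∈ Dec Q ∧ g • s ≠ s) :
    ∃ (b : 𝓞 F) (s : Zbar F) (A : Adm K (𝒦.om θ)), P0 b ∧ s ^ 2 = al F b ∧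
      (∀ g, g ∈ A.L.fixingSubgroup ↔ g • s = s) ∧ ¬ A.L ≤ M := by
  classical
  have hKf : FiniteDimensional F K := FiniteDimensional.of_finrank_pos (by rw [𝒦.deg]; norm_num)
  obtain ⟨c, t, hc, ht, hKt⟩ := exists_gen 𝒦.deg
  have hS0f : (S0 𝒦 θ).Finite := by
    refine (finite_bad _ (𝒦.lev_ne θ)).subset ?_
    rintro u ⟨w, hw, Q, hu, hwQ⟩
    exact ⟨w, Q, hu, hwQ, 𝒦.odd_lev θ w hw⟩
  -- the auxiliary prime
  obtain ⟨u1, hu1⟩ : ∃ u1, u1 ∉ (S0 𝒦 θ ∪ {v0}) ∪ {u : HeightOneSpectrum (𝓞 F) |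
      ∃ Q, Above u Q ∧ ∃ g, Acts Q g 1 ∧
        g ∉ (M ⊔ K : IntermediateField F (AlgebraicClosure F)).fixingSubgroup} := by
    have hf := (hS0f.union (Set.finite_singleton v0)).union
      (finite_ram (M ⊔ K : IntermediateField F (AlgebraicClosure F)))
    obtain ⟨g, v, hv, -⟩ := (frobPow_dense F hf).nonempty
    exact ⟨v, hv⟩
  rw [Set.mem_union, Set.mem_union, not_or, not_or] at hu1
  obtain ⟨⟨hu1S, hu1v⟩, hu1r⟩ := hu1
  rw [Set.mem_singleton_iff] at hu1v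
  let SP : HeightOneSpectrum (𝓞 F) → 𝓞 F → Prop := fun u b => ∀ Q, Above u Q →
    ∀ s : Zbar F, s ^ 2 = al F b → ∃ g ∈ Dec Q, g • t = t ∧ g • s ≠ s
  obtain ⟨b, hb, hpos⟩ := exists_pos
    (((hS0f.union (Set.finite_singleton v0)).union (Set.finite_singleton u1)).toFinset)
    (fun u => if u = v0 then P0 else if u = u1 then LocR u1 else SP u) (by
      intro u _
      by_cases h1 : u = v0
      · rw [if_pos h1, h1]; exact hP0
      · rw [if_neg h1]
        by_cases h2 : u = u1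
        · rw [if_pos h2, h2]; exact apprR u1
        · rw [if_neg h2]; exact odd_appr u hc ht)
  have hb0 := hb v0 (by simp)
  rw [if_pos rfl] at hb0
  have hb1 := hb u1 (by simp)
  rw [if_neg hu1v, if_pos rfl] at hb1
  obtain ⟨s, hs⟩ := exists_sqrt b
  have hbne : b ≠ 0 := by rintro rfl; exact hb1.2 (Ideal.zero_mem _)
  have hsn := sqrt_ne hs hbne
  obtain ⟨Q1, hQ1⟩ := exists_above u1
  obtain ⟨i, hi, his⟩ := locR_inertia hQ1 hb1 hs
  have hiM : i ∈ (M ⊔ K : IntermediateField F (AlgebraicClosure F)).fixingSubgroup := by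
    by_contra h1
    exact hu1r ⟨Q1, hQ1, i, hi, h1⟩
  have hiMM : i ∈ M.fixingSubgroup := IntermediateField.fixingSubgroup_antitone le_sup_left hiM
  have hiK : i ∈ K.fixingSubgroup := IntermediateField.fixingSubgroup_antitone le_sup_right hiM
  have hdeg := finrank_adjoin hs his hsn
  have hreal := real_adjoin 𝒦.base hs hpos
  have hi' : i • s ≠ s := by rw [his]; exact hsn.symm
  have hne : F⟮(s : AlgebraicClosure F)⟯ ≠ K := by
    intro h1
    apply hi'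
    rw [← mem_fix, h1]
    exact hiK
  obtain ⟨eta, he1, he2⟩ := 𝒦.tate θ (F⟮(s : AlgebraicClosure F)⟯) hdeg hreal hne (by
    intro w hw Q hwQ
    obtain ⟨u, hu⟩ := above_exists hwQ
    have huS : u ∈ S0 𝒦 θ := ⟨w, hw, Q, hu, hwQ⟩
    have h1 := hb u (by simp [huS])
    by_cases h2 : u = v0
    · subst h2
      obtain ⟨g, hgK, hgD, hgs⟩ := hS0 huS b hb0 Q hu s hs
      exact ⟨g, hgK, hgD, fun h3 => hgs ((mem_fix s g).1 h3)⟩
    · have h3 : u ≠ u1 := by rintro rfl; exact hu1S huS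
      rw [if_neg h2, if_neg h3] at h1
      obtain ⟨g, hgD, hgt, hgs⟩ := h1 Q hu s hs
      exact ⟨g, (hKt g).2 hgt, hgD, fun h4 => hgs ((mem_fix s g).1 h4)⟩)
  refine ⟨b, s, ⟨F⟮(s : AlgebraicClosure F)⟯, hdeg, hreal, hne, eta, he1, he2⟩, hb0, hs,
    mem_fix s, ?_⟩
  intro h1
  apply hi'
  rw [← mem_fix]
  exact IntermediateField.fixingSubgroup_antitone h1 hiMM

/-- the residue field of a split prime -/
theorem nm_split [FiniteDimensional F K] {u : HeightOneSpectrum (𝓞 F)}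
    {v : HeightOneSpectrum (𝓞 K)} {Q : Ideal (Zbar F)} (hu : Above u Q) (hv : Over K v Q)
    (h : ∀ g ∈ Dec Q, g ∈ K.fixingSubgroup) : nm v = nm u := by
  obtain ⟨φ, hφ⟩ := exists_frobF hu
  obtain ⟨m, hm⟩ := acts_pow hu hv φ (h φ (acts_dec hu.1 hφ)) 1 (by rw [pow_one]; exact hφ)
  obtain ⟨f, hf, hnm⟩ := nm_pow hu hv
  have hu1 := one_lt_nm u
  rw [hnm, ← pow_mul] at hm
  have h1 : 1 = f * m := Nat.pow_right_injective hu1 hm
  have h2 : f = 1 := Nat.eq_one_of_mul_eq_one_right h1.symm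
  rw [hnm, h2, pow_one]

end Pool.Agent.H19.QT

namespace Pool.Agent.H51.QT

open Pool.Agent.H19.QT

variable {F : Type} [Field F] [NumberField F] {K : IntermediateField F (AlgebraicClosure F)}

theorem Known.adm_pos (𝒦 : Known K) (θ : 𝒦.Eig) (M : IntermediateField F (AlgebraicClosure F))
    (hM : FiniteDimensional F M) : ∃ A : Adm K (𝒦.om θ), ¬ A.L ≤ M := by
  obtain ⟨c, t, hc, ht, hKt⟩ := exists_gen 𝒦.deg
  obtain ⟨g, v0, -, -⟩ := (frobPow_dense F Set.finite_empty).nonempty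
  obtain ⟨b, s, A, -, -, -, hA⟩ := core 𝒦 θ M hM v0 _ (odd_appr v0 hc ht) (by
    intro _ b hb Q hQ s hs
    obtain ⟨g, hgD, hgt, hgs⟩ := hb Q hQ s hs
    exact ⟨g, (hKt g).2 hgt, hgD, hgs⟩)
  exact ⟨A, hA⟩

theorem Known.adm_loc (𝒦 : Known K) (θ : 𝒦.Eig) (v : HeightOneSpectrum (𝓞 K)) (Q : Ideal (Zbar F))
    (hv : Over K v Q) (hlev : ¬ 𝒦.lev θ ≤ v.asIdeal) :
    (∃ A : Adm K (𝒦.om θ), Split K A.L Q ∧
      ∀ g ∈ K.fixingSubgroup, Acts Q g 1 → g ∈ A.L.fixingSubgroup) ∧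
    (∃ A : Adm K (𝒦.om θ), Split K A.L Q ∧ ∃ g ∈ GG K A.L, Acts Q g (nm v)) := by
  have hKf : FiniteDimensional F K := FiniteDimensional.of_finrank_pos (by rw [𝒦.deg]; norm_num)
  obtain ⟨c, t, hc, ht, hKt⟩ := exists_gen 𝒦.deg
  obtain ⟨u, hu⟩ := above_exists hv
  by_cases hsp : ∀ g ∈ Dec Q, g ∈ K.fixingSubgroup
  · -- the prime splits in `K`
    have hsp' := fun Q' (hQ' : Above u Q') => dec_le 𝒦.deg hu hQ' hsp
    constructor
    · obtain ⟨b, s, A, hb, hs, hA, -⟩ := core 𝒦 θ ⊥ inferInstance u _ (apprU u) (by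
        intro _ b hb Q' hQ' s hs
        obtain ⟨φ, hφ⟩ := exists_frobF hQ'
        have hφD := acts_dec hQ'.1 hφ
        exact ⟨φ, hsp' Q' hQ' φ hφD, hφD, locU_frob hQ' hb hs hφ⟩)
      refine ⟨A, fun g _ hg => hsp g hg, fun g _ hg => ?_⟩
      rw [hA]
      exact locU_inertia hu hb hs hg
    · obtain ⟨b, s, A, hb, hs, hA, -⟩ := core 𝒦 θ ⊥ inferInstance u _ (apprR u) (by
        intro _ b hb Q' hQ' s hs
        obtain ⟨i, hi, his⟩ := locR_inertia hQ' hb hs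
        have hiD := acts_dec hQ'.1 hi
        have hbne : b ≠ 0 := by rintro rfl; exact hb.2 (Ideal.zero_mem _)
        exact ⟨i, hsp' Q' hQ' i hiD, hiD, by rw [his]; exact (sqrt_ne hs hbne).symm⟩)
      refine ⟨A, fun g _ hg => hsp g hg, ?_⟩
      obtain ⟨φ, hφ, hφs⟩ := locR_frob hu hb hs
      refine ⟨φ, ⟨hsp φ (acts_dec hu.1 hφ), (hA φ).2 hφs⟩, ?_⟩
      rw [nm_split hu hv hsp]
      exact hφ
  · -- the prime does not split in `K`
    push Not at hsp
    obtain ⟨h0, hh0, hh0K⟩ := hsp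
    have hidx : K.fixingSubgroup.index = 2 := by
      rw [← IntermediateField.finrank_eq_fixingSubgroup_index, 𝒦.deg]
    have hnS : u ∉ S0 𝒦 θ := by
      rintro ⟨w, hw, Q', hQ', hwQ'⟩
      apply hlev
      obtain ⟨x, hx⟩ := above_smul hu hQ'
      -- choose `x` in the Galois group of `K`
      obtain ⟨x', hx'K, hx'⟩ : ∃ x' ∈ K.fixingSubgroup, Q' = x' • Q := by
        by_cases hxK : x ∈ K.fixingSubgroup
        · exact ⟨x, hxK, hx⟩
        · refine ⟨x * h0, (Subgroup.mul_mem_iff_of_index_two hidx).2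
            ⟨fun h => (hxK h).elim, fun h => (hh0K h).elim⟩, ?_⟩
          rw [mul_smul, MulAction.mem_stabilizer_iff.1 hh0, hx]
      have hwv : w = v := by
        apply HeightOneSpectrum.ext
        ext y
        rw [mem_v hwQ', mem_v hv, hx', Ideal.mem_pointwise_smul_iff_inv_smul_mem,
          smul_incl (inv_mem hx'K)]
      rw [← hwv]
      exact 𝒦.odd_lev θ w hw
    obtain ⟨b, s, A, hb, hs, hA, -⟩ := core 𝒦 θ ⊥ inferInstance u _ (apprC u hc)
      (fun h => (hnS h).elim)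
    have hiff : ∀ g ∈ Dec Q, (g ∈ A.L.fixingSubgroup ↔ g ∈ K.fixingSubgroup) := by
      intro g hg
      rw [hA, hKt]
      exact locC_iff hu hc hb hs ht hg
    refine ⟨⟨A, fun g hgL hgD => (hiff g hgD).1 hgL, fun g hgK hg => (hiff g ?_).2 hgK⟩,
      A, fun g hgL hgD => (hiff g hgD).1 hgL, ?_⟩
    · exact acts_dec hu.1 hg
    · obtain ⟨g, hg, hgQ⟩ := exists_frob hv
      exact ⟨g, ⟨hg, (hiff g (acts_dec hu.1 hgQ)).2 hg⟩, hgQ⟩

end Pool.Agent.H51.QT
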