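import Pool.Agent.H19.QT.Crt
import Pool.Agent.H89.IP.FrD

/-!
# QT.Bex : existence of admissible quadratic extensions
-/

set_option autoImplicit false

open scoped Pointwise NumberField IntermediateField
open Matrix IsDedekindDomain Pool.Agent.H71.Patch Pool.Agent.H51.QT Pool.Agent.H89.IP

namespace Pool.Agent.H19.QT

variable {F : Type} [Field F] [NumberField F] {K : IntermediateField F (AlgebraicClosure F)}

theorem exists_above (u : HeightOneSpectrum (𝓞 F)) : ∃ Q : Ideal (Zbar F), Above u Q := by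
  have := u.isPrime
  obtain ⟨Q, -, h1, h2⟩ := Ideal.exists_ideal_over_prime_of_isIntegral u.asIdeal (⊥ : Ideal (Zbar F))
    (by
      intro x hx
      have h3 : al F x = 0 := hx
      have h4 : x = 0 := al_inj (by rw [h3, map_zero])
      rw [h4]; exact Submodule.zero_mem _)
  exact ⟨Q, h1, h2⟩

/-- existence of Frobenius elements of `F` -/
theorem exists_frobF {u : HeightOneSpectrum (𝓞 F)} {Q : Ideal (Zbar F)}
    (hu : Above u Q) : ∃ g : GalK F, Acts Q g (nm u) := by
  have hQ := hu.1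
  have inv : Algebra.IsInvariant (𝓞 F) (Zbar F) (GalK F) := inferInstance
  let _ : TopologicalSpace (Zbar F) := ⊥
  have _ : DiscreteTopology (Zbar F) := ⟨rfl⟩
  have hc : ContinuousSMul (GalK F) (Zbar F) := by
    rw [continuousSMul_iff_stabilizer_isOpen]
    intro x
    have h1 := stabilizer_isOpen_of_isIntegral (K := F) (L := AlgebraicClosure F)
      (x : AlgebraicClosure F)
    convert h1 using 1
    ext g
    simp only [SetLike.mem_coe, MulAction.mem_stabilizer_iff]
    constructor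
    · intro h
      exact congrArg Subtype.val h
    · intro h
      exact Subtype.ext h
  have hvm : u.asIdeal.IsMaximal := u.isMaximal
  have : Q.LiesOver u.asIdeal := ⟨hu.2.symm⟩
  have : Algebra.IsIntegral (𝓞 F) (Zbar F) := inferInstance
  have hQm : Q.IsMaximal := Ideal.isMaximal_of_isIntegral_of_isMaximal_comap (R := 𝓞 F) Q (by
    have : Ideal.comap (algebraMap (𝓞 F) (Zbar F)) Q = u.asIdeal := hu.2
    rw [this]; exact hvm)
  letI : Field (𝓞 F ⧸ u.asIdeal) := Ideal.Quotient.field _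
  letI : Field (Zbar F ⧸ Q) := Ideal.Quotient.field _
  have := nm_finite u
  obtain ⟨p, hp⟩ := CharP.exists (𝓞 F ⧸ u.asIdeal)
  cases nonempty_fintype (𝓞 F ⧸ u.asIdeal)
  obtain ⟨k, hpp, hk⟩ := FiniteField.card (𝓞 F ⧸ u.asIdeal) p
  have := CharP.of_ringHom_of_ne_zero (algebraMap (𝓞 F ⧸ u.asIdeal) (Zbar F ⧸ Q)) p hpp.ne_zero
  have : ExpChar (Zbar F ⧸ Q) p := .prime hpp
  have : Algebra.IsIntegral (𝓞 F ⧸ u.asIdeal) (Zbar F ⧸ Q) := inferInstance
  have : Algebra.IsAlgebraic (𝓞 F ⧸ u.asIdeal) (Zbar F ⧸ Q) := Algebra.IsIntegral.isAlgebraic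
  have : PerfectField (Zbar F ⧸ Q) :=
    Algebra.IsAlgebraic.perfectField (K := 𝓞 F ⧸ u.asIdeal)
  have : PerfectRing (Zbar F ⧸ Q) p := PerfectField.toPerfectRing p
  let l : (Zbar F ⧸ Q) ≃ₐ[𝓞 F ⧸ u.asIdeal] Zbar F ⧸ Q :=
    { __ := iterateFrobeniusEquiv (Zbar F ⧸ Q) p k,
      commutes' r := by
        dsimp [iterateFrobenius_def]
        rw [← map_pow, ← hk, FiniteField.pow_card] }
  obtain ⟨σ, hσ⟩ := Ideal.Quotient.stabilizerHom_surjective_of_profinite
    (G := GalK F) u.asIdeal Q l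
  refine ⟨σ.1, fun x ↦ ?_⟩
  have hnm : nm u = p ^ (k : ℕ) := by
    rw [← hk]; exact Nat.card_eq_fintype_card
  rw [← Ideal.Quotient.eq, hnm]
  exact DFunLike.congr_fun hσ (Ideal.Quotient.mk Q x)

/-- a quadratic extension is generated by a square root -/
theorem exists_gen (hK : Module.finrank F K = 2) :
    ∃ (c : 𝓞 F) (t : Zbar F), c ≠ 0 ∧ t ^ 2 = al F c ∧
      ∀ g, g ∈ K.fixingSubgroup ↔ g • t = t := by
  have hfd : FiniteDimensional F K := FiniteDimensional.of_finrank_pos (by rw [hK]; norm_num)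
  have hnf := numberField_of K
  have hidx : K.fixingSubgroup.index = 2 := by
    rw [← IntermediateField.finrank_eq_fixingSubgroup_index, hK]
  have hmul := fun a b => Subgroup.mul_mem_iff_of_index_two hidx (a := a) (b := b)
  have hnorm : K.fixingSubgroup.Normal := Subgroup.normal_of_index_eq_two hidx
  -- an element outside
  obtain ⟨g0, hg0⟩ : ∃ g0, g0 ∉ K.fixingSubgroup := by
    by_contra hcon
    push Not at hcon
    rw [(Subgroup.eq_top_iff' _).2 hcon, Subgroup.index_top] at hidx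
    omega
  -- an integer moved by it
  obtain ⟨x, hx⟩ : ∃ x : 𝓞 K, g0 • incl K x ≠ incl K x := by
    by_contra hcon
    push Not at hcon
    apply hg0
    rw [IntermediateField.mem_fixingSubgroup_iff]
    intro y hy
    obtain ⟨x, z, -, hxz⟩ := IsFractionRing.div_surjective (A := 𝓞 K) (⟨y, hy⟩ : K)
    have h1 : g0 ((x : K) : AlgebraicClosure F) = ((x : K) : AlgebraicClosure F) :=
      congrArg Subtype.val (hcon x)
    have h2 : g0 ((z : K) : AlgebraicClosure F) = ((z : K) : AlgebraicClosure F) :=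
      congrArg Subtype.val (hcon z)
    have h3 : y = ((x : K) : AlgebraicClosure F) / ((z : K) : AlgebraicClosure F) :=
      (congrArg (Subtype.val) hxz).symm
    rw [h3, map_div₀, h1, h2]
  have hinv : g0⁻¹ ∉ K.fixingSubgroup := fun h => hg0 (by simpa using inv_mem h)
  let t : Zbar F := incl K x - g0 • incl K x
  have ht0 : t ≠ 0 := sub_ne_zero.2 (Ne.symm hx)
  have h1 : ∀ g ∈ K.fixingSubgroup, g • t = t := by
    intro g hg
    have h2 : g0⁻¹ * g * g0 ∈ K.fixingSubgroup := by
      have := hnorm.conj_mem g hg g0⁻¹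
      rwa [inv_inv] at this
    have h3 := smul_incl h2 x
    rw [mul_smul, mul_smul, inv_smul_eq_iff] at h3
    show g • (incl K x - g0 • incl K x) = incl K x - g0 • incl K x
    rw [smul_sub, smul_incl hg, h3]
  have h2 : ∀ g, g ∉ K.fixingSubgroup → g • t = -t := by
    intro g hg
    have h3 : g0⁻¹ * g ∈ K.fixingSubgroup := (hmul _ _).2 ⟨fun h => (hinv h).elim,
      fun h => (hg h).elim⟩
    have h4 : g * g0 ∈ K.fixingSubgroup := (hmul _ _).2 ⟨fun h => (hg h).elim,
      fun h => (hg0 h).elim⟩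
    have h5 := smul_incl h3 x
    rw [mul_smul, inv_smul_eq_iff] at h5
    have h6 := smul_incl h4 x
    rw [mul_smul] at h6
    show g • (incl K x - g0 • incl K x) = -(incl K x - g0 • incl K x)
    rw [smul_sub, h5, h6, neg_sub]
  obtain ⟨c, hc⟩ := exists_al (t ^ 2) (by
    intro g
    rw [smul_pow']
    by_cases hg : g ∈ K.fixingSubgroup
    · rw [h1 g hg]
    · rw [h2 g hg, neg_sq])
  have hc0 : c ≠ 0 := by
    rintro rfl
    rw [map_zero] at hc
    exact ht0 (pow_eq_zero_iff (two_ne_zero) |>.1 hc.symm)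
  refine ⟨c, t, hc0, hc.symm, fun g => ⟨h1 g, fun h => ?_⟩⟩
  by_contra hg
  have h3 := h2 g hg
  rw [h] at h3
  exact sqrt_ne hc.symm hc0 h3

/-- the condition at the primes with an odd central character can be satisfied -/
theorem odd_appr (u : HeightOneSpectrum (𝓞 F)) {c : 𝓞 F} (hc : c ≠ 0) {t : Zbar F}
    (ht : t ^ 2 = al F c) :
    Appr u (fun b => ∀ Q, Above u Q → ∀ s : Zbar F, s ^ 2 = al F b →
      ∃ g ∈ Dec Q, g • t = t ∧ g • s ≠ s) := by
  obtain ⟨n, hn, -⟩ := exists_coprime' (u := u) hc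
  rcases Nat.even_or_odd' n with ⟨m, hm | hm⟩
  · refine (apprR u).mono fun b hb Q hQ s hs => ?_
    have hb0 : b ≠ 0 := by rintro rfl; exact hb.2 (Ideal.zero_mem _)
    have hsn := sqrt_ne hs hb0
    have hs0 : s ≠ 0 := by
      rintro rfl
      exact hsn (by rw [neg_zero])
    obtain ⟨i, hi, his⟩ := locR_inertia hQ hb hs
    have hiD := acts_dec hQ.1 hi
    rcases smul_sqrt ht i with h1 | h1
    · exact ⟨i, hiD, h1, by rw [his]; exact hsn.symm⟩
    · have hbc : ord u (b * c) = (2 * m + 1 : ℕ) := by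
        rw [ord_mul, ord_locR hb, hn, hm]
        push_cast
        ring
      have hst : (s * t) ^ 2 = al F (b * c) := by rw [mul_pow, hs, ht, map_mul]
      obtain ⟨i', hi', hist⟩ := odd_inertia hQ hbc hst
      have hiD' := acts_dec hQ.1 hi'
      rw [smul_mul'] at hist
      rcases smul_sqrt hs i' with h2 | h2
      · rw [h2, ← mul_neg] at hist
        have h3 := mul_left_cancel₀ hs0 hist
        refine ⟨i * i', mul_mem hiD hiD', ?_, ?_⟩
        · rw [mul_smul, h3, smul_neg, h1, neg_neg]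
        · rw [mul_smul, h2, his]; exact hsn.symm
      · rw [h2, neg_mul, neg_inj] at hist
        have h3 := mul_left_cancel₀ hs0 hist
        exact ⟨i', hiD', h3, by rw [h2]; exact hsn.symm⟩
  · refine (apprU u).mono fun b hb Q hQ s hs => ?_
    obtain ⟨i, hi, hit⟩ := odd_inertia hQ (by rw [hn, hm]) ht
    have hiD := acts_dec hQ.1 hi
    obtain ⟨φ, hφ⟩ := exists_frobF hQ
    have hφD := acts_dec hQ.1 hφ
    have h1 := locU_frob hQ hb hs hφ
    rcases smul_sqrt ht φ with h2 | h2
    · exact ⟨φ, hφD, h2, h1⟩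
    · refine ⟨φ * i, mul_mem hφD hiD, ?_, ?_⟩
      · rw [mul_smul, hit, smul_neg, h2, neg_neg]
      · rw [mul_smul, locU_inertia hQ hb hs hi]
        exact h1

/-- `F(√b)` is totally real -/
theorem real_adjoin (hF : NumberField.IsTotallyReal F) {b : 𝓞 F} {s : Zbar F}
    (hs : s ^ 2 = al F b) (hpos : ∀ σ : F →+* ℂ, 0 < (σ b).re) :
    NumberField.IsTotallyReal (F⟮(s : AlgebraicClosure F)⟯) := by
  constructor
  intro v
  rw [NumberField.InfinitePlace.isReal_iff, NumberField.ComplexEmbedding.isReal_iff]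
  set τ := v.embedding with hτ
  have hreal : ∀ σ : F →+* ℂ, NumberField.ComplexEmbedding.IsReal σ := by
    intro σ
    have h1 := hF.isReal (NumberField.InfinitePlace.mk σ)
    exact NumberField.InfinitePlace.isReal_mk_iff.1 h1
  have hconj : ∀ (σ : F →+* ℂ) (x : F), star (σ x) = σ x := by
    intro σ x
    have h1 := NumberField.ComplexEmbedding.isReal_iff.1 (hreal σ)
    exact congrArg (fun f : F →+* ℂ => f x) h1
  let σ : F →+* ℂ := τ.comp (algebraMap F (F⟮(s : AlgebraicClosure F)⟯))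
  have h1 : ∀ x : F, star (τ (algebraMap F _ x)) = τ (algebraMap F _ x) := fun x => hconj σ x
  have hsm : (s : AlgebraicClosure F) ∈ F⟮(s : AlgebraicClosure F)⟯ :=
    IntermediateField.mem_adjoin_simple_self F _
  have h2 : star (τ ⟨s, hsm⟩) = τ ⟨s, hsm⟩ := by
    have h3 : (τ ⟨s, hsm⟩) ^ 2 = σ b := by
      rw [← map_pow]
      show _ = τ (algebraMap F _ b)
      congr 1
      apply Subtype.ext
      have h4 := congrArg Subtype.val hs
      push_cast at h4 ⊢
      exact h4
    have h4 := hpos σ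
    rw [← h3] at h4
    have h5 := hconj σ b
    rw [← h3] at h5
    obtain ⟨z, hz⟩ : ∃ z, z = τ ⟨s, hsm⟩ := ⟨_, rfl⟩
    rw [← hz] at h4 h5 ⊢
    have h6 : (z ^ 2).im = 0 := by
      have := congrArg Complex.im h5
      rw [Complex.star_def, Complex.conj_im] at this
      linarith
    rw [pow_two, Complex.mul_im] at h6
    rw [pow_two, Complex.mul_re] at h4
    have h7 : z.re * z.im = 0 := by linarith
    rw [Complex.star_def, Complex.conj_eq_iff_im]
    rcases mul_eq_zero.1 h7 with h8 | h8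
    · rw [h8] at h4
      nlinarith
    · exact h8
  ext x
  show star (τ x) = τ x
  obtain ⟨x, hx⟩ := x
  induction hx using IntermediateField.adjoin_induction with
  | mem y hy =>
    rw [Set.mem_singleton_iff] at hy
    subst hy
    exact h2
  | algebraMap y => exact h1 y
  | add y z hy hz h3 h4 =>
    have h5 : (⟨y + z, _⟩ : F⟮(s : AlgebraicClosure F)⟯) = ⟨y, hy⟩ + ⟨z, hz⟩ := rfl
    rw [h5, map_add, star_add, h3, h4]
  | inv y hy h3 =>
    have h5 : (⟨y⁻¹, _⟩ : F⟮(s : AlgebraicClosure F)⟯) = ⟨y, hy⟩⁻¹ := rfl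
    rw [h5, map_inv₀, star_inv₀, h3]
  | mul y z hy hz h3 h4 =>
    have h5 : (⟨y * z, _⟩ : F⟮(s : AlgebraicClosure F)⟯) = ⟨y, hy⟩ * ⟨z, hz⟩ := rfl
    rw [h5, map_mul, star_mul, h3, h4, mul_comm]

end Pool.Agent.H19.QT
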