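import Pool.Agent.H19.QT.Ram

/-!
# QT.Crt : totally positive integers with given local behaviour
-/

set_option autoImplicit false

open scoped Pointwise NumberField IntermediateField
open Matrix IsDedekindDomain Pool.Agent.H71.Patch Pool.Agent.H51.QT

namespace Pool.Agent.H19.QT

variable {F : Type} [Field F] [NumberField F]

/-- the condition `P` follows from a congruence modulo a power of `u` -/
def Appr (u : HeightOneSpectrum (𝓞 F)) (P : 𝓞 F → Prop) : Prop :=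
  ∃ (β : 𝓞 F) (n : ℕ), ∀ b, b - β ∈ u.asIdeal ^ n → P b

theorem Appr.mono {u : HeightOneSpectrum (𝓞 F)} {P P' : 𝓞 F → Prop} (h : Appr u P)
    (h' : ∀ b, P b → P' b) : Appr u P' := by
  obtain ⟨β, n, h1⟩ := h
  exact ⟨β, n, fun b hb => h' b (h1 b hb)⟩

theorem exists_locR (u : HeightOneSpectrum (𝓞 F)) : ∃ π, LocR u π := by
  obtain ⟨a, ha, ha'⟩ := Ideal.exists_mem_pow_notMem_pow_succ u.asIdeal u.ne_bot u.isPrime.ne_top 1
  exact ⟨a, by simpa using ha, ha'⟩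

theorem apprR (u : HeightOneSpectrum (𝓞 F)) : Appr u (LocR u) := by
  obtain ⟨π, h1, h2⟩ := exists_locR u
  refine ⟨π, 2, fun b hb => ⟨?_, fun h3 => h2 ?_⟩⟩
  · have h3 := Ideal.pow_le_self (I := u.asIdeal) (n := 2) (by norm_num) hb
    have h4 := Ideal.add_mem _ h3 h1
    rwa [sub_add_cancel] at h4
  · have h4 := Ideal.sub_mem _ h3 hb
    rwa [sub_sub_cancel] at h4

/-- clearing denominators at `u` -/
theorem exists_coprime' {u : HeightOneSpectrum (𝓞 F)} {d : 𝓞 F} (hd : d ≠ 0) :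
    ∃ k : ℕ, ord u d = k ∧ ∃ j, j ∉ u.asIdeal ∧ (∀ a ∈ u.asIdeal ^ k, ∃ a', j * a = d * a') ∧
      ∀ a ∈ u.asIdeal ^ (k + 1), ∃ a' ∈ u.asIdeal, j * a = d * a' := by
  have h0 : Ideal.span {d} ≠ (0 : Ideal (𝓞 F)) := by
    rw [Ne, Ideal.zero_eq_bot, Ideal.span_singleton_eq_bot]
    exact hd
  have hf : FiniteMultiplicity u.asIdeal (Ideal.span {d}) :=
    FiniteMultiplicity.of_prime_left u.prime h0
  obtain ⟨J, hJ, hJu⟩ := hf.exists_eq_pow_mul_and_not_dvd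
  rw [Ideal.dvd_iff_le] at hJu
  obtain ⟨j, hj, hju⟩ := SetLike.not_le_iff_exists.1 hJu
  obtain ⟨k, hk⟩ : ∃ k, k = multiplicity u.asIdeal (Ideal.span {d}) := ⟨_, rfl⟩
  rw [← hk] at hJ
  refine ⟨k, ?_, j, hju, ?_, ?_⟩
  · rw [ord, hf.emultiplicity_eq_multiplicity, hk]
  · intro a ha
    have h1 : j * a ∈ Ideal.span {d} := by
      rw [hJ, mul_comm j a]
      exact Ideal.mul_mem_mul ha hj
    exact (Ideal.mem_span_singleton'.1 h1).imp fun x hx => by rw [← hx]; ring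
  · intro a ha
    have h1 : a * j ∈ Ideal.span {d} * u.asIdeal := by
      have h2 : Ideal.span {d} * u.asIdeal = u.asIdeal ^ (k + 1) * J := by
        rw [hJ, pow_succ]; ring
      rw [h2]
      exact Ideal.mul_mem_mul ha hj
    obtain ⟨z, hz, hz'⟩ := Ideal.mem_span_singleton_mul.1 h1
    exact ⟨z, hz, by rw [hz', mul_comm]⟩

theorem four_ne : (4 : 𝓞 F) ≠ 0 := by
  have h : ((4 : ℕ) : 𝓞 F) ≠ 0 := Nat.cast_ne_zero.2 (by norm_num)
  exact_mod_cast h

theorem apprC (u : HeightOneSpectrum (𝓞 F)) {c : 𝓞 F} (hc : c ≠ 0) : Appr u (LocC c u) := by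
  have h0 : (4 * c : 𝓞 F) ≠ 0 := mul_ne_zero four_ne hc
  obtain ⟨k, -, j, hj, -, h2⟩ := exists_coprime' (u := u) h0
  refine ⟨c, k + 1, fun b hb => ?_⟩
  obtain ⟨r, hr, hr'⟩ := h2 _ hb
  exact ⟨j, r, hj, hr, by linear_combination hr'⟩

theorem exists_inv {u : HeightOneSpectrum (𝓞 F)} {j : 𝓞 F} (hj : j ∉ u.asIdeal) :
    ∃ w : 𝓞 F, 1 - w * j ∈ u.asIdeal := by
  obtain ⟨w, i, hi, hwi⟩ := u.isMaximal.exists_inv hj
  exact ⟨w, by rw [← hwi, add_sub_cancel_left]; exact hi⟩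

theorem exists_irr (u : HeightOneSpectrum (𝓞 F)) :
    ∃ y : 𝓞 F, ∀ t : 𝓞 F, t ^ 2 + t - y ∉ u.asIdeal := by
  have hum : u.asIdeal.IsMaximal := u.isMaximal
  letI : Field (𝓞 F ⧸ u.asIdeal) := Ideal.Quotient.field _
  have := nm_finite u
  have h1 : ¬ Function.Surjective (fun t : 𝓞 F ⧸ u.asIdeal => t ^ 2 + t) := by
    intro h2
    have h3 := Finite.injective_iff_surjective.2 h2
    have h4 : (0 : 𝓞 F ⧸ u.asIdeal) = -1 := h3 (by ring)
    exact neg_ne_zero.2 one_ne_zero h4.symm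
  unfold Function.Surjective at h1
  push Not at h1
  obtain ⟨y, hy⟩ := h1
  obtain ⟨y, rfl⟩ := Ideal.Quotient.mk_surjective y
  refine ⟨y, fun t ht => hy (Ideal.Quotient.mk _ t) ?_⟩
  rw [← map_pow, ← map_add, Ideal.Quotient.eq]
  exact ht

theorem apprU (u : HeightOneSpectrum (𝓞 F)) : Appr u (LocU u) := by
  have hup := u.isPrime
  obtain ⟨y0, hy0⟩ := exists_irr u
  obtain ⟨k, -, j, hj, -, h2⟩ := exists_coprime' (u := u) (d := (4 : 𝓞 F)) four_ne
  refine ⟨1 + 4 * y0, k + 1, fun b hb => ?_⟩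
  obtain ⟨r, hr, hr'⟩ := h2 _ hb
  have hirr : ∀ t : 𝓞 F, t ^ 2 + j * t - j * (y0 * j + r) ∉ u.asIdeal := by
    intro t ht
    obtain ⟨w, hw⟩ := exists_inv hj
    apply hy0 (w * t)
    have h3 : (w * t) ^ 2 + w * t - y0 = w ^ 2 * (t ^ 2 + j * t - j * (y0 * j + r)) +
        (w ^ 2 * j) * r + (1 - w * j) * (w * t - y0 * (1 + w * j)) := by ring
    rw [h3]
    exact Ideal.add_mem _ (Ideal.add_mem _ (Ideal.mul_mem_left _ _ ht) (Ideal.mul_mem_left _ _ hr))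
      (Ideal.mul_mem_right _ _ hw)
  have hbj : b * j = j + 4 * (y0 * j + r) := by linear_combination hr'
  refine ⟨j, y0 * j + r, hj, ?_, hbj, hirr⟩
  intro hbu
  by_cases h22 : (2 : 𝓞 F) ∈ u.asIdeal
  · apply hj
    have h3 : j = b * j - 2 * (2 * (y0 * j + r)) := by rw [hbj]; ring
    rw [h3]
    exact Ideal.sub_mem _ (Ideal.mul_mem_right _ _ hbu) (Ideal.mul_mem_right _ _ h22)
  · obtain ⟨w, hw⟩ := exists_inv h22
    apply hirr (-(w * j))
    have h3 : (4 : 𝓞 F) * ((-(w * j)) ^ 2 + j * (-(w * j)) - j * (y0 * j + r)) =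
        j ^ 2 * (1 - w * 2) * (1 - w * 2) - b * j * j := by rw [hbj]; ring
    have h4 : (4 : 𝓞 F) * ((-(w * j)) ^ 2 + j * (-(w * j)) - j * (y0 * j + r)) ∈ u.asIdeal := by
      rw [h3]
      exact Ideal.sub_mem _ (Ideal.mul_mem_left _ _ hw)
        (Ideal.mul_mem_right _ _ (Ideal.mul_mem_right _ _ hbu))
    refine (hup.mem_or_mem h4).resolve_left ?_
    intro h5
    have h6 : (2 : 𝓞 F) * 2 ∈ u.asIdeal := by norm_num; exact h5
    exact h22 ((hup.mem_or_mem h6).elim id id)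

/-- totally positive integers with given local behaviour -/
theorem exists_pos (T : Finset (HeightOneSpectrum (𝓞 F)))
    (P : HeightOneSpectrum (𝓞 F) → 𝓞 F → Prop) (h : ∀ u ∈ T, Appr u (P u)) :
    ∃ b : 𝓞 F, (∀ u ∈ T, P u b) ∧ ∀ σ : F →+* ℂ, 0 < (σ b).re := by
  classical
  have h' : ∀ u : HeightOneSpectrum (𝓞 F), ∃ (β : 𝓞 F) (n : ℕ), u ∈ T →
      ∀ b, b - β ∈ u.asIdeal ^ n → P u b := by
    intro u
    by_cases hu : u ∈ T
    · obtain ⟨β, n, h1⟩ := h u hu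
      exact ⟨β, n, fun _ => h1⟩
    · exact ⟨0, 0, fun h1 => (hu h1).elim⟩
  choose β n hβ using h'
  obtain ⟨y, hy⟩ := IsDedekindDomain.exists_forall_sub_mem_ideal (s := T)
    (fun u : HeightOneSpectrum (𝓞 F) => u.asIdeal) n (fun u _ => u.prime)
    (fun u _ u' _ huu h1 => huu (HeightOneSpectrum.ext h1)) (fun u => β u)
  let I : Ideal (𝓞 F) := ∏ u ∈ T, u.asIdeal ^ n u
  have hI : I ≠ ⊥ := by
    rw [← Ideal.zero_eq_bot]
    exact Finset.prod_ne_zero_iff.2 fun u _ => pow_ne_zero _ u.ne_bot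
  have hN : (Ideal.absNorm I : 𝓞 F) ∈ I := Ideal.absNorm_mem I
  have hN0 : 0 < Ideal.absNorm I := Nat.pos_of_ne_zero (by rwa [Ne, Ideal.absNorm_eq_zero_iff])
  obtain ⟨m, hm⟩ := exists_nat_gt (∑ σ : F →+* ℂ, ‖σ (y : F)‖)
  refine ⟨y + Ideal.absNorm I * m, fun u hu => hβ u hu _ ?_, fun σ => ?_⟩
  · have h1 : y + (Ideal.absNorm I : 𝓞 F) * m - β u = (y - β u) + (Ideal.absNorm I : 𝓞 F) * m := by
      ring
    rw [h1]
    refine Ideal.add_mem _ (hy u hu) (Ideal.mul_mem_right _ _ ?_)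
    exact (Ideal.dvd_iff_le.1 (Finset.dvd_prod_of_mem (fun u => u.asIdeal ^ n u) hu)) hN
  · have h1 : σ ((y + (Ideal.absNorm I : 𝓞 F) * m : 𝓞 F) : F) = σ (y : F) +
        (Ideal.absNorm I : ℂ) * m := by
      push_cast
      simp
    rw [h1, Complex.add_re]
    have h2 : (((Ideal.absNorm I : ℂ) * m)).re = (Ideal.absNorm I : ℝ) * m := by
      rw [← Nat.cast_mul, Complex.natCast_re, Nat.cast_mul]
    rw [h2]
    have h3 : ‖σ (y : F)‖ ≤ ∑ σ : F →+* ℂ, ‖σ (y : F)‖ :=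
      Finset.single_le_sum (f := fun σ : F →+* ℂ => ‖σ (y : F)‖) (fun _ _ => norm_nonneg _)
        (Finset.mem_univ σ)
    have h4 : -‖σ (y : F)‖ ≤ (σ (y : F)).re := (abs_le.1 (Complex.abs_re_le_norm _)).1
    have h5 : (1 : ℝ) ≤ Ideal.absNorm I := by exact_mod_cast hN0
    have h6 : (m : ℝ) ≤ (Ideal.absNorm I : ℝ) * m := le_mul_of_one_le_left (Nat.cast_nonneg m) h5
    linarith

/-- an inertia element moves the square root of an element of odd order -/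
theorem odd_inertia {u : HeightOneSpectrum (𝓞 F)} {Q : Ideal (Zbar F)} (hu : Above u Q) {c : 𝓞 F}
    {m : ℕ} (hc : ord u c = (2 * m + 1 : ℕ)) {t : Zbar F} (ht : t ^ 2 = al F c) :
    ∃ i : GalK F, Acts Q i 1 ∧ i • t = -t := by
  obtain ⟨π, hπ⟩ := exists_locR u
  have hπ1 := ord_locR hπ
  have hπ0 : π ≠ 0 := by rintro rfl; exact hπ.2 (Ideal.zero_mem _)
  have hc0 : c ≠ 0 := by
    rintro rfl
    have h1 : ((2 * m + 2 : ℕ) : ℕ∞) ≤ ord u (0 : 𝓞 F) := le_ord.2 (Ideal.zero_mem _)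
    rw [hc] at h1
    have h2 : 2 * m + 2 ≤ 2 * m + 1 := by exact_mod_cast h1
    omega
  have hpow : ∀ k : ℕ, ord u (π ^ k) = k := by
    intro k
    induction k with
    | zero =>
      rw [pow_zero]
      have h1 : ¬ ((1 : ℕ) : ℕ∞) ≤ ord u (1 : 𝓞 F) := by
        rw [le_ord, pow_one]
        exact fun h => u.isPrime.ne_top ((Ideal.eq_top_iff_one _).2 h)
      have h2 : ord u (1 : 𝓞 F) < 1 := by
        push Not at h1
        exact_mod_cast h1
      rw [Nat.cast_zero]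
      exact ENat.lt_one_iff_eq_zero.1 h2
    | succ k ih => rw [pow_succ, ord_mul, ih, hπ1]; push_cast; rfl
  obtain ⟨k, hk, j, hj, h1, -⟩ := exists_coprime' (u := u) (pow_ne_zero (2 * m) hπ0)
  rw [hpow] at hk
  have hk' : 2 * m = k := by exact_mod_cast hk
  obtain ⟨c', hc'⟩ := h1 c (by
    rw [← le_ord, hc]
    exact_mod_cast (by omega : k ≤ 2 * m + 1))
  have hj0 : ord u j = 0 := by
    have h2 : ¬ ((1 : ℕ) : ℕ∞) ≤ ord u j := by rw [le_ord, pow_one]; exact hj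
    push Not at h2
    exact ENat.lt_one_iff_eq_zero.1 (by exact_mod_cast h2)
  have hc'1 : ord u (c' * j) = 1 := by
    have h2 := congrArg (ord u) hc'
    rw [ord_mul, ord_mul, hj0, hc, hpow, zero_add] at h2
    rw [ord_mul, hj0, add_zero]
    have h3 : ord u c' ≠ ⊤ := by
      intro h4
      rw [h4, add_top] at h2
      exact ENat.coe_ne_top _ h2
    obtain ⟨n, hn⟩ := ENat.ne_top_iff_exists.1 h3
    rw [← hn] at h2 ⊢
    have h5 : 2 * m + 1 = 2 * m + n := by exact_mod_cast h2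
    have h6 : n = 1 := by omega
    rw [h6]; rfl
  have hR : LocR u (c' * j) := by
    constructor
    · have : ((1 : ℕ) : ℕ∞) ≤ ord u (c' * j) := by rw [hc'1]; rfl
      have := le_ord.1 this
      rwa [pow_one] at this
    · intro h2
      have h3 := le_ord.2 h2
      rw [hc'1] at h3
      have h4 : 2 ≤ 1 := by exact_mod_cast h3
      omega
  obtain ⟨s, hs⟩ := exists_sqrt (c' * j)
  obtain ⟨i, hi, his⟩ := locR_inertia hu hR hs
  refine ⟨i, hi, ?_⟩
  -- `j t = ± π ^ m s`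
  have hj00 : al F j ≠ 0 := by
    intro h2
    have h3 : j = 0 := al_inj (by rw [h2, map_zero])
    exact hj (by rw [h3]; exact Ideal.zero_mem _)
  have h2 : (al F j * t) ^ 2 = (al F (π ^ m) * s) ^ 2 := by
    rw [mul_pow, mul_pow, ht, hs, ← map_pow, ← map_mul, ← map_pow, ← map_mul]
    congr 1
    linear_combination j * hc'
  apply mul_left_cancel₀ hj00
  rcases sq_eq_sq_iff_eq_or_eq_neg.1 h2 with h3 | h3
  · have h4 := congrArg (fun x => i • x) h3
    simp only [smul_mul', smul_al, his] at h4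
    rw [h4, mul_neg, mul_neg, h3]
  · have h4 := congrArg (fun x => i • x) h3
    simp only [smul_neg, smul_mul', smul_al, his] at h4
    rw [h4, mul_neg, mul_neg, h3]

end Pool.Agent.H19.QT
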