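import Pool.Agent.H19.QT.Deg

/-!
# QT.Gen : the decomposition group modulo the Galois group of an unramified extension

`lift_triv` : an element of the decomposition group of `Q` which acts trivially on the residue field
of `M` agrees on the residue field of `Q` with an element of the Galois group of `M`.
`dec_gen` : the decomposition group of an unramified prime is generated by a Frobenius element
modulo the Galois group of `M`.
-/

set_option autoImplicit false

open scoped Pointwise NumberField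
open Matrix IsDedekindDomain Pool.Agent.H71.Patch Pool.Agent.H51.QT

namespace Pool.Agent.H19.QT

variable {F : Type} [Field F] [NumberField F]

theorem over_max {K : IntermediateField F (AlgebraicClosure F)} [FiniteDimensional F K]
    {v : HeightOneSpectrum (𝓞 K)} {Q : Ideal (Zbar F)} (hv : Over K v Q) : Q.IsMaximal := by
  have := numberField_of K
  have hQ := hv.1
  letI alg : Algebra (𝓞 K) (Zbar F) := (incl K).toAlgebra
  have : Algebra.IsIntegral (𝓞 K) (Zbar F) := ⟨incl_integral K⟩
  refine Ideal.isMaximal_of_isIntegral_of_isMaximal_comap Q (R := 𝓞 K) ?_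
  have : Ideal.comap (algebraMap (𝓞 K) (Zbar F)) Q = v.asIdeal := hv.2
  rw [this]; exact v.isMaximal

theorem fixed_incl (K : IntermediateField F (AlgebraicClosure F)) (b : Zbar F)
    (hb : ∀ g ∈ K.fixingSubgroup, g • b = b) : ∃ y : 𝓞 K, incl K y = b := by
  letI alg : Algebra (𝓞 K) (Zbar F) := (incl K).toAlgebra
  have h1 : Algebra.IsInvariant (𝓞 K) (Zbar F) K.fixingSubgroup := invariant K
  exact h1.isInvariant b (fun g => hb g.1 g.2)

theorem lift_triv (K : IntermediateField F (AlgebraicClosure F)) [FiniteDimensional F K]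
    {v : HeightOneSpectrum (𝓞 K)} {Q : Ideal (Zbar F)} (hv : Over K v Q) {h : GalK F}
    (hh : h ∈ Dec Q) (hK : ∀ x : 𝓞 K, h • incl K x - incl K x ∈ Q) :
    ∃ m ∈ K.fixingSubgroup, m ∈ Dec Q ∧ Acts Q (m⁻¹ * h) 1 := by
  have := numberField_of K
  have hQ := hv.1
  letI alg : Algebra (𝓞 K) (Zbar F) := (incl K).toAlgebra
  have inv : Algebra.IsInvariant (𝓞 K) (Zbar F) K.fixingSubgroup := invariant K
  let _ : TopologicalSpace (Zbar F) := ⊥
  have _ : DiscreteTopology (Zbar F) := ⟨rfl⟩
  have hc : ContinuousSMul (GalK F) (Zbar F) := by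
    rw [continuousSMul_iff_stabilizer_isOpen]
    intro x
    have h1 := stabilizer_isOpen_of_isIntegral (K := F) (L := AlgebraicClosure F)
      (x : AlgebraicClosure F)
    convert h1 using 1
    ext g
    simp only [SetLike.mem_coe, MulAction.mem_stabilizer_iff]
    constructor
    · intro h
      exact congrArg Subtype.val h
    · intro h
      exact Subtype.ext h
  have hC : IsClosed (K.fixingSubgroup : Set (GalK F)) := K.fixingSubgroup_isClosed
  have hCc : CompactSpace K.fixingSubgroup := isCompact_iff_compactSpace.1 hC.isCompact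
  have hCs : ContinuousSMul K.fixingSubgroup (Zbar F) := ⟨by
    have h2 : Continuous fun p : K.fixingSubgroup × Zbar F => ((p.1 : GalK F), p.2) := by fun_prop
    exact Continuous.comp (g := fun p : GalK F × Zbar F => p.1 • p.2) continuous_smul h2⟩
  have hsc : SMulCommClass K.fixingSubgroup (𝓞 K) (Zbar F) := ⟨fun c a b => by
    have h2 : c • (incl K a) = incl K a := smul_incl c.2 a
    rw [Algebra.smul_def, Algebra.smul_def, smul_mul']
    congr 1⟩
  have hlo : Q.LiesOver v.asIdeal := ⟨hv.2.symm⟩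
  -- the automorphism of the residue field
  have h1 : Q.map (MulSemiringAction.toRingEquiv (GalK F) (Zbar F) h) = Q :=
    MulAction.mem_stabilizer_iff.1 hh
  let e0 : (Zbar F ⧸ Q) ≃+* (Zbar F ⧸ Q) :=
    Ideal.quotientEquiv Q Q (MulSemiringAction.toRingEquiv (GalK F) (Zbar F) h) h1.symm
  let e : (Zbar F ⧸ Q) ≃ₐ[𝓞 K ⧸ v.asIdeal] (Zbar F ⧸ Q) :=
    { e0 with
      commutes' := by
        intro r
        obtain ⟨x, rfl⟩ := Ideal.Quotient.mk_surjective r
        show Ideal.Quotient.mk Q (h • incl K x) = Ideal.Quotient.mk Q (incl K x)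
        rw [Ideal.Quotient.eq]
        exact hK x }
  obtain ⟨σ, hσ⟩ := Ideal.Quotient.stabilizerHom_surjective_of_profinite
    (G := K.fixingSubgroup) v.asIdeal Q e
  have h2 : ∀ x : Zbar F, (σ.1.1 : GalK F) • x - h • x ∈ Q := by
    intro x
    rw [← Ideal.Quotient.eq]
    exact DFunLike.congr_fun hσ (Ideal.Quotient.mk Q x)
  have hmD : (σ.1.1 : GalK F) ∈ Dec Q := σ.2
  refine ⟨σ.1.1, σ.1.2, hmD, fun x => ?_⟩
  have h3 := dec_mem (inv_mem hmD) (h2 x)
  rw [smul_sub, inv_smul_smul] at h3
  rw [mul_smul, pow_one, ← neg_sub]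
  exact Q.neg_mem h3

theorem acts_pow' {Q : Ideal (Zbar F)} (hQ : Q.IsPrime) {n : ℕ} {g : GalK F} (h : Acts Q g n)
    (k : ℕ) : Acts Q (g ^ k) (n ^ k) := by
  induction k with
  | zero => intro x; simp
  | succ k ih =>
    rw [pow_succ, pow_succ]
    exact acts_mul hQ ih h

/-- the decomposition group of an unramified prime is generated by a Frobenius element modulo the
Galois group of `M` -/
theorem dec_gen (M : IntermediateField F (AlgebraicClosure F)) [FiniteDimensional F M]
    [IsGalois F M] {u : HeightOneSpectrum (𝓞 F)} {Q : Ideal (Zbar F)} (hu : Above u Q)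
    (hI : ∀ g, Acts Q g 1 → g ∈ M.fixingSubgroup) {φ : GalK F} (hφ : Acts Q φ (nm u))
    {h : GalK F} (hh : h ∈ Dec Q) : ∃ i : ℕ, (φ ^ i)⁻¹ * h ∈ M.fixingSubgroup := by
  have := numberField_of M
  have hQ := hu.1
  obtain ⟨w, hw⟩ := over_exists M hu
  have hnorm : M.fixingSubgroup.Normal := (InfiniteGalois.normal_iff_isGalois M).mpr inferInstance
  -- `h` preserves `M`
  have hst : ∀ g : GalK F, ∀ x : 𝓞 M, ∃ y : 𝓞 M, g • incl M x = incl M y := by
    intro g x
    obtain ⟨y, hy⟩ := fixed_incl M (g • incl M x) (fun m hm => by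
      have h2 : g⁻¹ * m * g ∈ M.fixingSubgroup := by
        have := hnorm.conj_mem m hm g⁻¹
        rwa [inv_inv] at this
      have h3 := smul_incl h2 x
      rw [mul_smul, mul_smul, inv_smul_eq_iff] at h3
      exact h3)
    exact ⟨y, hy.symm⟩
  choose st hst using hst
  -- the automorphism of the residue field of `w`
  have hwm : w.asIdeal.IsMaximal := w.isMaximal
  have hum : u.asIdeal.IsMaximal := u.isMaximal
  have hlo : w.asIdeal.LiesOver u.asIdeal := ⟨under_eq hu hw⟩
  letI : Field (𝓞 F ⧸ u.asIdeal) := Ideal.Quotient.field _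
  letI : Field (𝓞 M ⧸ w.asIdeal) := Ideal.Quotient.field _
  have := nm_finite w
  have := nm_finite u
  let gh : 𝓞 M →+* 𝓞 M :=
    { toFun := st h
      map_one' := incl_inj M (by rw [← hst, map_one, smul_one])
      map_mul' := fun x y => incl_inj M (by rw [← hst, map_mul, map_mul, smul_mul', hst, hst])
      map_zero' := incl_inj M (by rw [← hst, map_zero, smul_zero])
      map_add' := fun x y => incl_inj M (by rw [← hst, map_add, map_add, smul_add, hst, hst]) }
  have hgh : ∀ x, incl M (gh x) = h • incl M x := fun x => (hst h x).symm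
  have hle : w.asIdeal ≤ w.asIdeal.comap gh := by
    intro x hx
    rw [Ideal.mem_comap, mem_v hw, hgh]
    exact dec_mem hh ((mem_v hw x).1 hx)
  let e0 : (𝓞 M ⧸ w.asIdeal) →+* (𝓞 M ⧸ w.asIdeal) := Ideal.quotientMap w.asIdeal gh hle
  let e1 : (𝓞 M ⧸ w.asIdeal) →ₐ[𝓞 F ⧸ u.asIdeal] (𝓞 M ⧸ w.asIdeal) :=
    { e0 with
      commutes' := by
        intro r
        obtain ⟨x, rfl⟩ := Ideal.Quotient.mk_surjective r
        show Ideal.Quotient.mk w.asIdeal (gh (algebraMap (𝓞 F) (𝓞 M) x)) =
          Ideal.Quotient.mk w.asIdeal (algebraMap (𝓞 F) (𝓞 M) x)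
        congr 1
        apply incl_inj M
        rw [hgh, incl_algebraMap]
        apply Subtype.ext
        exact h.commutes _ }
  let e : Gal((𝓞 M ⧸ w.asIdeal)/(𝓞 F ⧸ u.asIdeal)) := AlgEquiv.ofBijective e1
    (by
      have h1 : Function.Injective e1 := e1.injective
      exact ⟨h1, Finite.surjective_of_injective h1⟩)
  cases nonempty_fintype (𝓞 F ⧸ u.asIdeal)
  obtain ⟨ii, hi⟩ := (FiniteField.bijective_frobeniusAlgEquivOfAlgebraic_pow
    (𝓞 F ⧸ u.asIdeal) (𝓞 M ⧸ w.asIdeal)).2 e
  obtain ⟨i, hii⟩ : ∃ i : ℕ, i = ii.1 := ⟨_, rfl⟩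
  beta_reduce at hi
  rw [← hii] at hi
  have h1 : ∀ x : 𝓞 M, gh x - x ^ (nm u ^ i) ∈ w.asIdeal := by
    intro x
    rw [← Ideal.Quotient.eq]
    have h2 : e (Ideal.Quotient.mk _ x) = Ideal.Quotient.mk _ (gh x) := rfl
    rw [← h2, ← hi]
    have h3 := congrFun (FiniteField.coe_frobeniusAlgEquivOfAlgebraic_iterate
      (𝓞 F ⧸ u.asIdeal) (𝓞 M ⧸ w.asIdeal) i) (Ideal.Quotient.mk _ x)
    have h4 : Fintype.card (𝓞 F ⧸ u.asIdeal) = nm u := Nat.card_eq_fintype_card.symm
    rw [h4] at h3
    rw [map_pow, ← h3, ← AlgEquiv.coe_pow]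
  refine ⟨i, ?_⟩
  have hφi := acts_pow' hQ hφ i
  have hφD : φ ^ i ∈ Dec Q := acts_dec hQ hφi
  obtain ⟨m, hm, -, hma⟩ := lift_triv M hw (h := (φ ^ i)⁻¹ * h)
    (mul_mem (inv_mem hφD) hh) (by
      intro x
      have h5 : h • incl M x - φ ^ i • incl M x ∈ Q := by
        have h6 := (mem_v hw _).1 (h1 x)
        rw [map_sub, hgh, map_pow] at h6
        have h7 := Q.sub_mem h6 (hφi (incl M x))
        rwa [sub_sub_sub_cancel_right] at h7
      have h8 := dec_mem (inv_mem hφD) h5
      rw [smul_sub, inv_smul_smul] at h8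
      rw [mul_smul]
      exact h8)
  have h9 := hI _ hma
  have h10 := mul_mem hm h9
  rwa [mul_inv_cancel_left] at h10

end Pool.Agent.H19.QT
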