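import Pool.Agent.H51.QT.Base
import Pool.Agent.H19.QT.Gen

/-!
# QT.Den : the trace at powers of Frobenius elements of `F`
-/

set_option autoImplicit false

open scoped Pointwise NumberField
open Matrix IsDedekindDomain Pool.Agent.H71.Patch Pool.Agent.H89.IP Pool.Agent.H51.QT

namespace Pool.Agent.H19.QT

variable {F : Type} [Field F] [NumberField F] {K : IntermediateField F (AlgebraicClosure F)}

/-- the conclusion of the local theorem -/
def LocAt (𝒦 : Known K) {θ : 𝒦.Eig} (A : Adm K (𝒦.om θ)) {l : ℕ} [Fact l.Prime]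
    (j : Qb →+* PadicAlgCl l) (ρ : GG K A.L →* GL (Fin 2) (PadicAlgCl l)) : Prop :=
  ∀ (v : HeightOneSpectrum (𝓞 K)) (Q : Ideal (Zbar F)), Over K v Q → ¬ 𝒦.lev θ ≤ v.asIdeal →
    (l : 𝓞 K) ∉ v.asIdeal → Split K A.L Q →
    ∀ (g : GG K A.L) (k : ℕ), Acts Q g (nm v ^ k) → (ρ g).val.trace = j (𝒦.tr θ Q g)

theorem den_of (𝒦 : Known K) {θ : 𝒦.Eig} (A : Adm K (𝒦.om θ)) {l : ℕ} [Fact l.Prime]
    (j : Qb →+* PadicAlgCl l) {ρ : GG K A.L →* GL (Fin 2) (PadicAlgCl l)} (hρ : IsPat 𝒦 A j ρ)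
    (hloc : LocAt 𝒦 A j ρ) :
    ∃ S : Set (HeightOneSpectrum (𝓞 F)), S.Finite ∧
      ∀ u, u ∉ S → ∀ Q, Above u Q → ∀ φ : GalK F, IsArithFrobAt (𝓞 F) φ Q → ∀ k : ℕ, 0 < k →
        ∀ h : φ ^ k ∈ GG K A.L, (ρ ⟨φ ^ k, h⟩).val.trace = j (𝒦.tr θ Q (φ ^ k)) := by
  have hKf : FiniteDimensional F K := FiniteDimensional.of_finrank_pos (by rw [𝒦.deg]; norm_num)
  have hLf : FiniteDimensional F A.L := FiniteDimensional.of_finrank_pos (by rw [A.deg]; norm_num)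
  have hsf : FiniteDimensional F (K ⊔ A.L : IntermediateField F (AlgebraicClosure F)) :=
    inferInstance
  let M := IntermediateField.normalClosure F (K ⊔ A.L : IntermediateField F (AlgebraicClosure F))
    (AlgebraicClosure F)
  have hMf : FiniteDimensional F M := inferInstance
  have hMg : IsGalois F M := IsGalois.mk
  have hle : (K ⊔ A.L : IntermediateField F (AlgebraicClosure F)) ≤ M :=
    IntermediateField.le_normalClosure _
  have hMK : M.fixingSubgroup ≤ K.fixingSubgroup :=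
    IntermediateField.fixingSubgroup_antitone (le_sup_left.trans hle)
  have hML : M.fixingSubgroup ≤ A.L.fixingSubgroup :=
    IntermediateField.fixingSubgroup_antitone (le_sup_right.trans hle)
  refine ⟨{u | (l : 𝓞 F) ∈ u.asIdeal} ∪
    {u | ∃ v Q, Above u Q ∧ Over K v Q ∧ 𝒦.lev θ ≤ v.asIdeal} ∪
    {u | ∃ Q, Above u Q ∧ ∃ g, Acts Q g 1 ∧ g ∉ M.fixingSubgroup}, ?_, ?_⟩
  · exact ((finite_l l (Fact.out : l.Prime).ne_zero).union (finite_bad _ (𝒦.lev_ne θ))).union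
      (finite_ram M)
  intro u hu Q hQ φ hφ k hk hg
  rw [Set.mem_union, Set.mem_union, not_or, not_or] at hu
  obtain ⟨⟨hul, hub⟩, hur⟩ := hu
  have hφ' : Acts Q φ (nm u) := (acts_frob hQ).1 hφ
  have hI : ∀ g, Acts Q g 1 → g ∈ M.fixingSubgroup := by
    intro x hx
    by_contra hxM
    exact hur ⟨Q, hQ, x, hx, hxM⟩
  obtain ⟨v, hv⟩ := over_exists K hQ
  have hgk : Acts Q (φ ^ k) (nm u ^ k) := acts_pow' hQ.1 hφ' k
  by_cases hs : Split K A.L Q
  · obtain ⟨m, hm⟩ := acts_pow hQ hv (φ ^ k) hg.1 k hgk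
    refine hloc v Q hv (fun h => hub ⟨v, Q, hQ, hv, h⟩)
      (fun h => hul ((mem_iff hQ hv l).2 h)) hs ⟨φ ^ k, hg⟩ m ?_
    rw [← hm]
    exact hgk
  · unfold Split at hs
    push Not at hs
    obtain ⟨h, hhL, hhD, hhK⟩ := hs
    obtain ⟨i, hi⟩ := dec_gen M hQ hI hφ' hhD
    have hiD : φ ^ i ∈ Dec Q := pow_mem (acts_dec hQ.1 hφ') i
    have hiL : φ ^ i ∈ A.L.fixingSubgroup := by
      have h1 := mul_mem hhL (inv_mem (hML hi))
      have h2 : h * ((φ ^ i)⁻¹ * h)⁻¹ = φ ^ i := by group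
      rwa [h2] at h1
    have hiK : φ ^ i ∉ K.fixingSubgroup := by
      intro h1
      apply hhK
      have h2 := mul_mem h1 (hMK hi)
      rwa [mul_inv_cancel_left] at h2
    have hc : (φ ^ i)⁻¹ * φ ^ k * φ ^ i = φ ^ k := by
      rw [mul_assoc, (Commute.pow_pow_self φ k i).eq, inv_mul_cancel_left]
    have hcm : (φ ^ i)⁻¹ * φ ^ k * φ ^ i ∈ GG K A.L := by rw [hc]; exact hg
    have h0 : (1 : GG K A.L →* (PadicAlgCl l)ˣ) ^ 2 = 1 := by
      ext x; simp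
    have h1 := hρ.2.2 1 continuous_const h0 u Q hQ hul ⟨φ ^ k, hg⟩
      ⟨k, Or.inl hgk⟩ (φ ^ i) hiL hiK hcm
    have h2 : (⟨(φ ^ i)⁻¹ * φ ^ k * φ ^ i, hcm⟩ : GG K A.L) = ⟨φ ^ k, hg⟩ := Subtype.ext hc
    have h2' : (φ ^ i)⁻¹ • Q = Q := MulAction.mem_stabilizer_iff.1 (inv_mem hiD)
    rw [h2', h2, ← two_mul] at h1
    have h3 := (mul_eq_zero.1 h1).resolve_left two_ne_zero
    unfold dif at h3
    rw [MonoidHom.one_apply, Units.val_one, one_mul] at h3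
    have h4 : j ((A.eta ⟨φ ^ k, hg⟩)⁻¹ : Qbˣ) ≠ 0 := by
      rw [Ne, map_eq_zero]
      exact Units.ne_zero _
    exact sub_eq_zero.1 ((mul_eq_zero.1 h3).resolve_left h4)

end Pool.Agent.H19.QT
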