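import Pool.Agent.H19.QT.GluK
import Pool.Agent.H19.QT.Adm
import Pool.Agent.H71.QT.LocFin

/-!
# QT.Fin : modules DEN and GLU, final forms
-/

set_option autoImplicit false

open scoped Pointwise NumberField
open Matrix IsDedekindDomain Pool.Agent.H71.Patch Pool.Agent.H89.IP Pool.Agent.H51.QT

namespace Pool.Agent.H19.QT

variable {F : Type} [Field F] [NumberField F] {K : IntermediateField F (AlgebraicClosure F)}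

theorem locAt (𝒦 : Known K) {θ : 𝒦.Eig} (A : Adm K (𝒦.om θ)) {l : ℕ} [Fact l.Prime]
    (j : Qb →+* PadicAlgCl l) {ρ : GG K A.L →* GL (Fin 2) (PadicAlgCl l)} (hρ : IsPat 𝒦 A j ρ) :
    LocAt 𝒦 A j ρ :=
  fun _ _ hv hlev hl hs => (H71.QT.loc 𝒦 A j hρ hv hlev hl hs).1

theorem den (𝒦 : Known K) {θ : 𝒦.Eig} (A : Adm K (𝒦.om θ)) {l : ℕ} [Fact l.Prime]
    (j : Qb →+* PadicAlgCl l) {ρ : GG K A.L →* GL (Fin 2) (PadicAlgCl l)} (hρ : IsPat 𝒦 A j ρ) :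
    ∃ S : Set (HeightOneSpectrum (𝓞 F)), S.Finite ∧
      ∀ u, u ∉ S → ∀ Q, Above u Q → ∀ φ : GalK F, IsArithFrobAt (𝓞 F) φ Q → ∀ k : ℕ, 0 < k →
        ∀ h : φ ^ k ∈ GG K A.L, (ρ ⟨φ ^ k, h⟩).val.trace = j (𝒦.tr θ Q (φ ^ k)) :=
  den_of 𝒦 A j hρ (locAt 𝒦 A j hρ)

theorem glue (𝒦 : Known K) (θ : 𝒦.Eig) {l : ℕ} [Fact l.Prime] (j : Qb →+* PadicAlgCl l)
    (r : ∀ A : Adm K (𝒦.om θ), GG K A.L →* GL (Fin 2) (PadicAlgCl l))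
    (hr : ∀ A, IsPat 𝒦 A j (r A)) :
    ∃ σ : K.fixingSubgroup →* GL (Fin 2) (PadicAlgCl l), Continuous σ ∧
      ∀ A : Adm K (𝒦.om θ), ∃ T : GL (Fin 2) (PadicAlgCl l), ∀ g : GG K A.L,
        r A g = T * σ ⟨g, g.2.1⟩ * T⁻¹ :=
  glu_of 𝒦 θ j (𝒦.adm_pos θ) r hr fun A => locAt 𝒦 A j (hr A)

end Pool.Agent.H19.QT
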