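import Pool.Agent.H89.IP.NF
import Pool.Agent.H71.Patch.Main

/-!
# QT.Glu : gluing of representations given by their traces (MP_976e2b_nt)
-/

set_option autoImplicit false

open scoped Pointwise NumberField
open Matrix IsDedekindDomain Pool.Agent.H71.Patch Pool.Agent.H89.IP

namespace Pool.Agent.H19.QT

section Iso

variable {Γ E : Type*} [Group Γ] [Field E] [CharZero E] [IsAlgClosed E] {n : ℕ}

/-- two representations of subgroups with semisimple restrictions to the intersection and equal traces there are isomorphic on the intersection -/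
theorem isoOn_of_trace {A B : Subgroup Γ} (ρ : A →* GL (Fin n) E) (τ : B →* GL (Fin n) E)
    (hρ : Semis (ρ.comp (Subgroup.inclusion (inf_le_left : A ⊓ B ≤ A))))
    (hτ : Semis (τ.comp (Subgroup.inclusion (inf_le_right : A ⊓ B ≤ B))))
    (h : ∀ (g : Γ) (ha : g ∈ A) (hb : g ∈ B), (ρ ⟨g, ha⟩).val.trace = (τ ⟨g, hb⟩).val.trace) :
    IsoOn ρ τ := by
  obtain ⟨P, C, h1, h2, h3⟩ := bn_iso (vm (τ.comp (Subgroup.inclusion (inf_le_right : A ⊓ B ≤ B))))
    (vm (ρ.comp (Subgroup.inclusion (inf_le_left : A ⊓ B ≤ A)))) hτ hρ (fun g => by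
      have := h g.1 g.2.1 g.2.2
      exact this.symm)
  refine ⟨⟨P, C, h2, h1⟩, fun g ha hb => ?_⟩
  have h4 := h3 ⟨g, ha, hb⟩
  rw [eq_mul_inv_iff_mul_eq]
  ext1
  exact h4

end Iso

section Top

variable {G E : Type*} [Group G] [TopologicalSpace G] [IsTopologicalGroup G] [Field E]
  [TopologicalSpace E] [IsTopologicalRing E] [T2Space E] {n : ℕ}

/-- traces which agree on a dense set of elements of open subgroups agree -/
theorem trace_eq_of_dense {A B : Subgroup G} (hA : IsOpen (A : Set G)) (hB : IsOpen (B : Set G))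
    (ρ : A →* GL (Fin n) E) (τ : B →* GL (Fin n) E) (cρ : Continuous ρ) (cτ : Continuous τ)
    {D : Set G} (hD : Dense D)
    (h : ∀ (g : G) (ha : g ∈ A) (hb : g ∈ B), g ∈ D →
      (ρ ⟨g, ha⟩).val.trace = (τ ⟨g, hb⟩).val.trace)
    (g : G) (ha : g ∈ A) (hb : g ∈ B) : (ρ ⟨g, ha⟩).val.trace = (τ ⟨g, hb⟩).val.trace := by
  let f : ↥(A ⊓ B) → E := fun x => (ρ ⟨x.1, x.2.1⟩).val.trace
  let f' : ↥(A ⊓ B) → E := fun x => (τ ⟨x.1, x.2.2⟩).val.trace
  have ct : ∀ {X : Type _} [TopologicalSpace X] (F : X → GL (Fin n) E), Continuous F →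
      Continuous fun x => (F x).val.trace := by
    intro X _ F hF
    exact (Units.continuous_val.comp hF).matrix_trace
  have cf : Continuous f := by
    refine ct (fun x : ↥(A ⊓ B) => ρ ⟨x.1, x.2.1⟩) (cρ.comp ?_)
    exact Continuous.subtype_mk continuous_subtype_val _
  have cf' : Continuous f' := by
    refine ct (fun x : ↥(A ⊓ B) => τ ⟨x.1, x.2.2⟩) (cτ.comp ?_)
    exact Continuous.subtype_mk continuous_subtype_val _
  have hd : Dense {x : ↥(A ⊓ B) | x.1 ∈ D} := by
    have ho : IsOpen ((A ⊓ B : Subgroup G) : Set G) := hA.inter hB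
    rw [dense_iff_inter_open]
    rintro U hU ⟨x, hx⟩
    obtain ⟨V, hV, rfl⟩ := isOpen_induced_iff.1 hU
    obtain ⟨y, hy, hyD⟩ := hD.inter_open_nonempty (V ∩ ((A ⊓ B : Subgroup G) : Set G))
      (hV.inter ho) ⟨x.1, hx, x.2⟩
    exact ⟨⟨y, hy.2⟩, hy.1, hyD⟩
  have := Continuous.ext_on hd cf cf' (fun x hx => h x.1 x.2.1 x.2.2 hx)
  exact congrFun this ⟨g, ha, hb⟩

end Top

end Pool.Agent.H19.QT
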