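import Pool.Agent.H89.IP.NF

/-!
# QT.Sem : semisimplicity of the restriction to a subgroup of index two
-/

set_option autoImplicit false

open Matrix Pool.Agent.H71.Patch Pool.Agent.H89.IP

namespace Pool.Agent.H19.QT

variable {A E : Type*} [Group A] [Field E] {n : ℕ}

/-- the restriction of a semisimple representation to a subgroup of index at most two is semisimple -/
theorem semis_two (ρ : A →* GL (Fin n) E) (h : Semis ρ) (V : Subgroup A)
    (hV : ∀ x y, x ∉ V → y ∉ V → x⁻¹ * y ∈ V) : Semis (ρ.comp V.subtype) := by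
  intro W hW
  have hW1 : ∀ v ∈ V, ∀ x ∈ W, (ρ v).val *ᵥ x ∈ W := fun v hv x hx => hW ⟨v, hv⟩ x hx
  by_cases hg : ∃ g, g ∉ V
  · obtain ⟨g, hg⟩ := hg
    have mul : ∀ (a b : A) (x : Fin n → E), (ρ a).val *ᵥ ((ρ b).val *ᵥ x) = (ρ (a * b)).val *ᵥ x := by
      intro a b x
      rw [map_mul, Units.val_mul, Matrix.mulVec_mulVec]
    have mul' : ∀ (a b : A), a ∉ V → b ∉ V → a * b ∈ V := by
      intro a b ha hb
      have := hV a⁻¹ b (fun hc => ha (by simpa using V.inv_mem hc)) hb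
      rwa [inv_inv] at this
    -- the translate of `W`
    let gW : Submodule E (Fin n → E) := W.map (Matrix.mulVecLin (ρ g).val)
    have mem_gW : ∀ x, x ∈ gW ↔ ∃ w ∈ W, (ρ g).val *ᵥ w = x := fun x => Iff.rfl
    have gW_V : ∀ v ∈ V, ∀ x ∈ gW, (ρ v).val *ᵥ x ∈ gW := by
      rintro v hv x hx
      obtain ⟨w, hw, rfl⟩ := (mem_gW x).1 hx
      refine (mem_gW _).2 ⟨(ρ (g⁻¹ * (v * g))).val *ᵥ w, hW1 _ ?_ w hw, ?_⟩
      · refine hV g (v * g) hg fun hc => hg ?_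
        have := V.mul_mem (V.inv_mem hv) hc
        rwa [inv_mul_cancel_left] at this
      · rw [mul, mul, mul_inv_cancel_left]
    have W_gW : ∀ a, a ∉ V → ∀ x ∈ W, (ρ a).val *ᵥ x ∈ gW := by
      intro a ha x hx
      refine (mem_gW _).2 ⟨(ρ (g⁻¹ * a)).val *ᵥ x, hW1 _ (hV g a hg ha) x hx, ?_⟩
      rw [mul, mul_inv_cancel_left]
    have gW_W : ∀ a, a ∉ V → ∀ x ∈ gW, (ρ a).val *ᵥ x ∈ W := by
      intro a ha x hx
      obtain ⟨w, hw, rfl⟩ := (mem_gW x).1 hx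
      rw [mul]
      exact hW1 _ (mul' a g ha hg) w hw
    -- the two invariant subspaces
    have invI : ∀ a, ∀ x ∈ W ⊓ gW, (ρ a).val *ᵥ x ∈ W ⊓ gW := by
      rintro a x ⟨h1, h2⟩
      by_cases ha : a ∈ V
      · exact ⟨hW1 a ha x h1, gW_V a ha x h2⟩
      · exact ⟨gW_W a ha x h2, W_gW a ha x h1⟩
    have invS : ∀ a, ∀ x ∈ W ⊔ gW, (ρ a).val *ᵥ x ∈ W ⊔ gW := by
      intro a x hx
      obtain ⟨y, hy, z, hz, rfl⟩ := Submodule.mem_sup.1 hx
      rw [Matrix.mulVec_add]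
      by_cases ha : a ∈ V
      · exact Submodule.add_mem_sup (hW1 a ha y hy) (gW_V a ha z hz)
      · rw [add_comm]
        exact Submodule.add_mem_sup (gW_W a ha z hz) (W_gW a ha y hy)
    obtain ⟨J, hJ, cJ⟩ := h _ invI
    obtain ⟨U, hU, cU⟩ := h _ invS
    refine ⟨(gW ⊓ J) ⊔ U, ?_, ?_⟩
    · intro v x hx
      obtain ⟨y, hy, z, hz, rfl⟩ := Submodule.mem_sup.1 hx
      rw [Matrix.mulVec_add]
      exact Submodule.add_mem_sup ⟨gW_V v.1 v.2 y hy.1, hJ v.1 y hy.2⟩ (hU v.1 z hz)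
    · constructor
      · rw [Submodule.disjoint_def]
        intro x hx hx'
        obtain ⟨y, hy, z, hz, e⟩ := Submodule.mem_sup.1 hx'
        have h1 : z ∈ W ⊔ gW := by
          have : z = x - y := by rw [← e, add_sub_cancel_left]
          rw [this]
          exact Submodule.sub_mem _ (Submodule.mem_sup_left hx) (Submodule.mem_sup_right hy.1)
        have h2 : z = 0 := (Submodule.disjoint_def.1 cU.1) z h1 hz
        rw [h2, add_zero] at e
        rw [← e] at hx ⊢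
        exact (Submodule.disjoint_def.1 cJ.1) y ⟨hx, hy.1⟩ hy.2
      · rw [codisjoint_iff]
        have h1 : gW ≤ W ⊔ (gW ⊓ J) := by
          have h2 : gW = (W ⊓ gW) ⊔ (gW ⊓ J) := by
            calc gW = gW ⊓ ((W ⊓ gW) ⊔ J) := by rw [codisjoint_iff.1 cJ.2, inf_top_eq]
              _ = ((W ⊓ gW) ⊔ J) ⊓ gW := inf_comm _ _
              _ = (W ⊓ gW) ⊔ (J ⊓ gW) := by
                  rw [sup_inf_assoc_of_le J (inf_le_right : W ⊓ gW ≤ gW)]
              _ = _ := by rw [inf_comm J gW]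
          rw [h2]
          exact sup_le (inf_le_left.trans le_sup_left) (by
            rw [← h2]; exact le_sup_right)
        have h3 : W ⊔ gW ≤ W ⊔ ((gW ⊓ J) ⊔ U) :=
          sup_le le_sup_left (h1.trans (sup_le_sup_left le_sup_left W))
        have h4 : U ≤ W ⊔ ((gW ⊓ J) ⊔ U) := le_sup_right.trans le_sup_right
        exact top_unique ((codisjoint_iff.1 cU.2).symm ▸ sup_le h3 h4)
  · push Not at hg
    obtain ⟨W', h1, h2⟩ := h W fun a x hx => hW1 a (hg a) x hx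
    exact ⟨W', fun v x hx => h1 v.1 x hx, h2⟩

/-- the restriction to the intersection with a subgroup of index two -/
theorem semis_inf {G : Type*} [Group G] {A B : Subgroup G} (ρ : A →* GL (Fin n) E) (h : Semis ρ)
    (hB : ∀ x y, x ∉ B → y ∉ B → x⁻¹ * y ∈ B) :
    Semis (ρ.comp (Subgroup.inclusion (inf_le_left : A ⊓ B ≤ A))) := by
  have h1 := semis_two ρ h (B.subgroupOf A) (fun x y hx hy => by
    rw [Subgroup.mem_subgroupOf] at hx hy ⊢
    exact hB x.1 y.1 hx hy)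
  intro W hW
  obtain ⟨W', h2, h3⟩ := h1 W (fun g x hx => hW ⟨g.1.1, g.1.2, g.2⟩ x hx)
  exact ⟨W', fun g x hx => h2 ⟨⟨g.1, g.2.1⟩, g.2.2⟩ x hx, h3⟩

theorem semis_inf' {G : Type*} [Group G] {A B : Subgroup G} (ρ : A →* GL (Fin n) E) (h : Semis ρ)
    (hB : ∀ x y, x ∉ B → y ∉ B → x⁻¹ * y ∈ B) :
    Semis (ρ.comp (Subgroup.inclusion (inf_le_right : B ⊓ A ≤ A))) := by
  intro W hW
  obtain ⟨W', h2, h3⟩ := semis_inf ρ h hB W (fun g x hx => hW ⟨g.1, g.2.2, g.2.1⟩ x hx)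
  exact ⟨W', fun g x hx => h2 ⟨g.1, g.2.2, g.2.1⟩ x hx, h3⟩

end Pool.Agent.H19.QT
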