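import Pool.Agent.H19.QT.Glu
import Pool.Agent.H19.QT.Sem

/-!
# QT.GluRel : gluing over a family of subgroups of index two of an open subgroup of a compact group

`G` is an open subgroup of the compact group `Γ` (for `Γ = Gal(F̄/F)`: the absolute Galois group of a finite extension `K`), `B i ≤ G` open
subgroups of index at most two (`G_{K(√b)}`), not all containing a given open subgroup. Semisimple representations `ρ i` of `B i` whose traces are the
values of one function `a` on dense sets glue to a representation of `G`.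
-/

set_option autoImplicit false

open Matrix Pool.Agent.H71.Patch Pool.Agent.H89.IP

namespace Pool.Agent.H19.QT

variable {Γ : Type*} [Group Γ] [TopologicalSpace Γ] [IsTopologicalGroup Γ]

/-- an open subgroup of a compact group contains an open normal subgroup -/
theorem exists_open_normal_le [CompactSpace Γ] (N : Subgroup Γ) (hN : IsOpen (N : Set Γ)) :
    ∃ H : Subgroup Γ, H.Normal ∧ IsOpen (H : Set Γ) ∧ H ≤ N := by
  haveI hf : N.FiniteIndex := by
    haveI : Finite (Γ ⧸ N) := Subgroup.quotient_finite_of_isOpen N hN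
    exact Subgroup.finiteIndex_of_finite_quotient
  refine ⟨N.normalCore, inferInstance, ?_, N.normalCore_le⟩
  haveI : N.normalCore.FiniteIndex := inferInstance
  refine Subgroup.isOpen_of_isClosed_of_finiteIndex _ ?_
  have h1 : (N.normalCore : Set Γ) = ⋂ b : Γ, (fun a => b * a * b⁻¹) ⁻¹' (N : Set Γ) := by
    ext a
    simp only [Set.mem_iInter, Set.mem_preimage, SetLike.mem_coe]
    exact Iff.rfl
  rw [h1]
  refine isClosed_iInter fun b => ?_
  exact (Subgroup.isClosed_of_isOpen N hN).preimage (by fun_prop)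

variable {E : Type*} [Field E] [IsAlgClosed E] [CharZero E] [TopologicalSpace E]
  [IsTopologicalRing E] [T2Space E] {n : ℕ}

/-- **Gluing.** -/
theorem glu [CompactSpace Γ] (G : Subgroup Γ) (hG : IsOpen (G : Set Γ)) {ι : Type*}
    (B : ι → Subgroup Γ) (hB : ∀ i, B i ≤ G) (oB : ∀ i, IsOpen (B i : Set Γ))
    (h2 : ∀ i, ∀ x ∈ G, ∀ y ∈ G, x ∉ B i → y ∉ B i → x⁻¹ * y ∈ B i)
    (gp : ∀ U : Subgroup Γ, IsOpen (U : Set Γ) → ∃ i, ∃ g ∈ G, g ∈ U ∧ g ∉ B i)
    (ρ : ∀ i, B i →* GL (Fin n) E) (cρ : ∀ i, Continuous (ρ i)) (sρ : ∀ i, Semis (ρ i))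
    (D : ι → Set Γ) (dD : ∀ i j, Dense (D i ∩ D j)) (a : Γ → E)
    (tr : ∀ i (g : Γ) (h : g ∈ B i), g ∈ D i → (ρ i ⟨g, h⟩).val.trace = a g) :
    ∃ σ : G →* GL (Fin n) E, Continuous σ ∧
      ∀ i, ∃ T : GL (Fin n) E, ∀ (g : Γ) (h : g ∈ B i), ρ i ⟨g, h⟩ = T * σ ⟨g, hB i h⟩ * T⁻¹ := by
  classical
  -- the group `G` is compact
  haveI cG : CompactSpace G :=
    isCompact_iff_compactSpace.1 ((Subgroup.isClosed_of_isOpen G hG).isCompact)
  -- compatibility
  have compat : ∀ i j, IsoOn (ρ i) (ρ j) := by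
    intro i j
    have trij := trace_eq_of_dense (oB i) (oB j) (ρ i) (ρ j) (cρ i) (cρ j) (dD i j)
      (fun g ha hb hg => by rw [tr i g ha hg.1, tr j g hb hg.2])
    refine isoOn_of_trace (ρ i) (ρ j) ?_ ?_ trij
    · have h1 := semis_two (ρ i) (sρ i) ((B j).subgroupOf (B i)) (fun x y hx hy => by
        rw [Subgroup.mem_subgroupOf] at hx hy ⊢
        exact h2 j x.1 (hB i x.2) y.1 (hB i y.2) hx hy)
      intro W hW
      obtain ⟨W', h3, h4⟩ := h1 W (fun g x hx => hW ⟨g.1.1, g.1.2, g.2⟩ x hx)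
      exact ⟨W', fun g x hx => h3 ⟨⟨g.1, g.2.1⟩, g.2.2⟩ x hx, h4⟩
    · have h1 := semis_two (ρ j) (sρ j) ((B i).subgroupOf (B j)) (fun x y hx hy => by
        rw [Subgroup.mem_subgroupOf] at hx hy ⊢
        exact h2 i x.1 (hB j x.2) y.1 (hB j y.2) hx hy)
      intro W hW
      obtain ⟨W', h3, h4⟩ := h1 W (fun g x hx => hW ⟨g.1.1, g.2, g.1.2⟩ x hx)
      exact ⟨W', fun g x hx => h3 ⟨⟨g.1, g.2.2⟩, g.2.1⟩ x hx, h4⟩
  -- the abstract theorem in the group `G`
  let Bas : Set (Subgroup G) := {H | H.Normal ∧ IsOpen (H : Set G)}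
  let N : ι → Subgroup G := fun i => (B i).subgroupOf G
  have oN : ∀ i, IsOpen (N i : Set G) := fun i => (oB i).preimage continuous_subtype_val
  let r : ι → G → GL (Fin n) E := fun i g => if h : (g : Γ) ∈ B i then ρ i ⟨g, h⟩ else 1
  have hr : ∀ i (g : G) (h : (g : Γ) ∈ B i), r i g = ρ i ⟨g, h⟩ := fun i g h => dif_pos h
  have gpN : ∀ H ∈ Bas, ∃ i, GP (N i) H := by
    rintro H ⟨-, hH⟩
    obtain ⟨i, g, hg, hgU, hgB⟩ := gp (H.map G.subtype) (by
      have h1 : ((H.map G.subtype : Subgroup Γ) : Set Γ) = Subtype.val '' (H : Set G) := rfl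
      rw [h1]
      exact hG.isOpenEmbedding_subtypeVal.isOpenMap _ hH)
    obtain ⟨h, hh, rfl⟩ := hgU
    refine ⟨i, fun γ => ?_⟩
    by_cases hγ : (γ : Γ) ∈ B i
    · exact ⟨γ, hγ, 1, H.one_mem, by rw [mul_one]⟩
    · refine ⟨γ * h, ?_, h⁻¹, H.inv_mem hh, by group⟩
      have h3 := h2 i (γ : Γ)⁻¹ (G.inv_mem γ.2) h.1 h.2
        (fun hc => hγ (by simpa using (B i).inv_mem hc)) hgB
      rw [inv_inv] at h3
      exact h3
  obtain ⟨σ, hσ⟩ := exists_glue Bas N (fun H hH => hH.1)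
    (fun H hH H' hH' => ⟨H ⊓ H', ⟨@Subgroup.normal_inf_normal _ _ H H' hH.1 hH'.1,
      hH.2.inter hH'.2⟩, le_rfl⟩)
    ⟨⊤, ⟨inferInstance, isOpen_univ⟩⟩
    (fun i => by
      obtain ⟨H, h1, h3, h4⟩ := exists_open_normal_le (N i) (oN i)
      exact ⟨H, ⟨h1, h3⟩, h4⟩) gpN r
    (by
      intro i x hx y hy
      have hx' : (x : Γ) ∈ B i := hx
      have hy' : (y : Γ) ∈ B i := hy
      rw [hr i _ hx', hr i _ hy', hr i (x * y) ((B i).mul_mem hx' hy'), ← map_mul]
      rfl)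
    (by
      intro i j
      obtain ⟨T, hT⟩ := compat i j
      refine ⟨T, fun g ha hb => ?_⟩
      have ha' : (g : Γ) ∈ B i := ha
      have hb' : (g : Γ) ∈ B j := hb
      rw [hr i _ ha', hr j _ hb']
      exact hT g ha' hb')
  have hσ' : ∀ i, ∃ T : GL (Fin n) E, ∀ (g : Γ) (h : g ∈ B i),
      ρ i ⟨g, h⟩ = T * σ ⟨g, hB i h⟩ * T⁻¹ := by
    intro i
    obtain ⟨T, hT⟩ := hσ i
    refine ⟨T, fun g h => ?_⟩
    rw [← hT ⟨g, hB i h⟩ h]
    exact (hr i ⟨g, hB i h⟩ h).symm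
  refine ⟨σ, ?_, hσ'⟩
  obtain ⟨i, -⟩ := gpN ⊤ ⟨inferInstance, isOpen_univ⟩
  obtain ⟨T, hT⟩ := hσ' i
  apply continuous_of_continuousAt_one σ
  have h1 : ContinuousOn σ (N i : Set G) := by
    rw [continuousOn_iff_continuous_domRestrict]
    have h3 : Set.domRestrict (N i : Set G) σ =
        fun g : (N i : Set G) => T⁻¹ * ρ i ⟨g.1.1, g.2⟩ * T := by
      funext g
      show σ g.1 = _
      rw [hT g.1.1 g.2]
      group
    rw [h3]
    refine (continuous_const.mul ((cρ i).comp ?_)).mul continuous_const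
    exact Continuous.subtype_mk (continuous_subtype_val.comp continuous_subtype_val) _
  exact h1.continuousAt ((oN i).mem_nhds (Subgroup.one_mem _))

end Pool.Agent.H19.QT
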