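import Pool.Agent.H19.QT.Den
import Pool.Agent.H19.QT.GluRel
import Pool.Agent.H89.QT.Cls

/-!
# QT.GluK : gluing over the totally real quadratic extensions `L` of `F`
-/

set_option autoImplicit false

open scoped Pointwise NumberField
open Matrix IsDedekindDomain Pool.Agent.H71.Patch Pool.Agent.H89.IP Pool.Agent.H51.QT
open Pool.Agent.H89.QT

namespace Pool.Agent.H19.QT

variable {F : Type} [Field F] [NumberField F] {K : IntermediateField F (AlgebraicClosure F)}

/-- two elements outside the Galois group of a quadratic extension differ by one in it -/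
theorem quad_coset (L : IntermediateField F (AlgebraicClosure F)) (hL : Module.finrank F L = 2)
    (x y : GalK F) (hx : x ∉ L.fixingSubgroup) (hy : y ∉ L.fixingSubgroup) :
    x⁻¹ * y ∈ L.fixingSubgroup := by
  have h1 : L.fixingSubgroup.index = 2 := by
    rw [← IntermediateField.finrank_eq_fixingSubgroup_index, hL]
  rw [Subgroup.mul_mem_iff_of_index_two h1, inv_mem_iff]
  exact ⟨fun h => (hx h).elim, fun h => (hy h).elim⟩

theorem glu_of (𝒦 : Known K) (θ : 𝒦.Eig) {l : ℕ} [Fact l.Prime] (j : Qb →+* PadicAlgCl l)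
    (hpos : ∀ M : IntermediateField F (AlgebraicClosure F), FiniteDimensional F M →
      ∃ A : Adm K (𝒦.om θ), ¬ A.L ≤ M)
    (r : ∀ A : Adm K (𝒦.om θ), GG K A.L →* GL (Fin 2) (PadicAlgCl l))
    (hr : ∀ A, IsPat 𝒦 A j (r A)) (hloc : ∀ A, LocAt 𝒦 A j (r A)) :
    ∃ σ : K.fixingSubgroup →* GL (Fin 2) (PadicAlgCl l), Continuous σ ∧
      ∀ A : Adm K (𝒦.om θ), ∃ T : GL (Fin 2) (PadicAlgCl l), ∀ g : GG K A.L,
        r A g = T * σ ⟨g, g.2.1⟩ * T⁻¹ := by
  have hKf : FiniteDimensional F K := FiniteDimensional.of_finrank_pos (by rw [𝒦.deg]; norm_num)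
  have hLf : ∀ A : Adm K (𝒦.om θ), FiniteDimensional F A.L := fun A =>
    FiniteDimensional.of_finrank_pos (by rw [A.deg]; norm_num)
  have hKo : IsOpen (K.fixingSubgroup : Set (GalK F)) := K.fixingSubgroup_isOpen
  have hLo : ∀ A : Adm K (𝒦.om θ), IsOpen (A.L.fixingSubgroup : Set (GalK F)) := fun A =>
    haveI := hLf A
    A.L.fixingSubgroup_isOpen
  have den := fun A => den_of 𝒦 A j (hr A) (hloc A)
  choose S hS hden using den
  let val : Ideal (Zbar F) → (⊤ : Subgroup (GalK F)) → PadicAlgCl l :=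
    fun Q g => j (𝒦.tr θ Q g)
  obtain ⟨σ, hσ, hσ'⟩ := glu (Γ := GalK F) K.fixingSubgroup hKo (fun A => GG K A.L)
    (fun A => inf_le_left) (fun A => hKo.inter (hLo A))
    (by
      intro A x hx y hy hxB hyB
      refine ⟨K.fixingSubgroup.mul_mem (K.fixingSubgroup.inv_mem hx) hy,
        quad_coset A.L A.deg x y ?_ ?_⟩
      · exact fun h => hxB ⟨hx, h⟩
      · exact fun h => hyB ⟨hy, h⟩)
    (by
      intro U hU
      obtain ⟨W, hW, hWU⟩ := (krullTopology_mem_nhds_one_iff F (AlgebraicClosure F) (U : Set (GalK F))).1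
        (hU.mem_nhds U.one_mem)
      have hWf : FiniteDimensional F W := hW
      obtain ⟨A, hA⟩ := hpos (K ⊔ W) inferInstance
      have h1 : ¬ (K ⊔ W).fixingSubgroup ≤ A.L.fixingSubgroup := by
        intro h2
        apply hA
        have h3 := IntermediateField.fixedField_antitone h2
        rwa [InfiniteGalois.fixedField_fixingSubgroup,
          InfiniteGalois.fixedField_fixingSubgroup] at h3
      obtain ⟨g, hg, hgA⟩ := SetLike.not_le_iff_exists.1 h1
      have hgK : g ∈ K.fixingSubgroup := IntermediateField.fixingSubgroup_antitone le_sup_left hg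
      have hgW : g ∈ W.fixingSubgroup := IntermediateField.fixingSubgroup_antitone le_sup_right hg
      exact ⟨A, g, hgK, hWU hgW, fun h => hgA h.2⟩)
    r (fun A => (hr A).1) (fun A => (hr A).2.1)
    (fun A => FrobPow F (S A ∪ two F))
    (by
      intro A A'
      have h1 : ((S A ∪ two F) ∪ (S A' ∪ two F)).Finite :=
        ((hS A).union two_finite).union ((hS A').union two_finite)
      refine (frobPow_dense F h1).mono ?_
      intro g hg
      exact ⟨frobPow_anti Set.subset_union_left hg, frobPow_anti Set.subset_union_right hg⟩)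
    (fun g => glob val ⟨g, trivial⟩)
    (by
      rintro A g h ⟨u, hu, Q, hQ, φ, hφ, k, hk, rfl⟩
      have h2 : IsFP Q (φ ^ k) := ⟨above_max hQ, above_two hQ fun h3 => hu (Or.inr h3), φ, hφ,
        k, hk, rfl⟩
      rw [hden A u (fun h3 => hu (Or.inl h3)) Q hQ φ hφ k hk h]
      have h3 := glob_eq (B := (⊤ : Subgroup (GalK F))) val (Q := Q) (g := ⟨φ ^ k, trivial⟩) h2
      exact h3.symm)
  refine ⟨σ, hσ, fun A => ?_⟩
  obtain ⟨T, hT⟩ := hσ' A
  exact ⟨T, fun g => hT g.1 g.2⟩

end Pool.Agent.H19.QT
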