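import Pool.Agent.H19.QT.Sqrt

/-!
# QT.Ram : square roots of uniformizers
-/

set_option autoImplicit false

open scoped Pointwise NumberField IntermediateField
open Matrix IsDedekindDomain Pool.Agent.H71.Patch Pool.Agent.H51.QT

namespace Pool.Agent.H19.QT

variable {F : Type} [Field F] [NumberField F]

/-- the Galois group of `K` is transitive on the primes with the same restriction to `K` -/
theorem trans_over (K : IntermediateField F (AlgebraicClosure F)) [FiniteDimensional F K] {P Q : Ideal (Zbar F)}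
    (hP : P.IsPrime) (hQ : Q.IsPrime) (h : below K P = below K Q) :
    ∃ g ∈ K.fixingSubgroup, Q = g • P := by
  letI alg : Algebra (𝓞 K) (Zbar F) := (incl K).toAlgebra
  have inv : Algebra.IsInvariant (𝓞 K) (Zbar F) K.fixingSubgroup := invariant K
  let _ : TopologicalSpace (Zbar F) := ⊥
  have _ : DiscreteTopology (Zbar F) := ⟨rfl⟩
  have hc : ContinuousSMul (GalK F) (Zbar F) := by
    rw [continuousSMul_iff_stabilizer_isOpen]
    intro x
    have h1 := stabilizer_isOpen_of_isIntegral (K := F) (L := AlgebraicClosure F)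
      (x : AlgebraicClosure F)
    convert h1 using 1
    ext g
    simp only [SetLike.mem_coe, MulAction.mem_stabilizer_iff]
    constructor
    · intro h
      exact congrArg Subtype.val h
    · intro h
      exact Subtype.ext h
  have hC : IsClosed (K.fixingSubgroup : Set (GalK F)) := K.fixingSubgroup_isClosed
  have hCc : CompactSpace K.fixingSubgroup := isCompact_iff_compactSpace.1 hC.isCompact
  have hCs : ContinuousSMul K.fixingSubgroup (Zbar F) := ⟨by
    have h2 : Continuous fun p : K.fixingSubgroup × Zbar F => ((p.1 : GalK F), p.2) := by fun_prop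
    exact Continuous.comp (g := fun p : GalK F × Zbar F => p.1 • p.2) continuous_smul h2⟩
  have hsc : SMulCommClass K.fixingSubgroup (𝓞 K) (Zbar F) := ⟨fun c a b => by
    have h2 : c • (incl K a) = incl K a := smul_incl c.2 a
    rw [Algebra.smul_def, Algebra.smul_def, smul_mul']
    congr 1⟩
  obtain ⟨g, hg⟩ := Algebra.IsInvariant.exists_smul_of_under_eq_of_profinite
    (A := 𝓞 K) (B := Zbar F) (G := K.fixingSubgroup) P Q h
  exact ⟨g.1, g.2, hg⟩

/-- the Galois group of `F(s)` -/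
theorem mem_fix (s : Zbar F) (g : GalK F) :
    g ∈ (F⟮(s : AlgebraicClosure F)⟯).fixingSubgroup ↔ g • s = s := by
  constructor
  · intro h
    apply Subtype.ext
    exact (IntermediateField.mem_fixingSubgroup_iff _ g).1 h _
      (IntermediateField.mem_adjoin_simple_self F _)
  · intro h
    have h1 : F⟮(s : AlgebraicClosure F)⟯ ≤
        IntermediateField.fixedField (Subgroup.zpowers g) := by
      rw [IntermediateField.adjoin_simple_le_iff, IntermediateField.mem_fixedField_iff]
      rintro _ ⟨k, rfl⟩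
      have h2 : g ∈ MulAction.stabilizer (GalK F) s := h
      have h3 : g ^ k • s = s := zpow_mem h2 k
      exact congrArg Subtype.val h3
    exact (IntermediateField.le_iff_le _ _).1 h1 (Subgroup.mem_zpowers g)

/-- the order of an element at a prime -/
noncomputable def ord (u : HeightOneSpectrum (𝓞 F)) (x : 𝓞 F) : ℕ∞ :=
  emultiplicity u.asIdeal (Ideal.span {x})

theorem le_ord {u : HeightOneSpectrum (𝓞 F)} {x : 𝓞 F} {n : ℕ} :
    (n : ℕ∞) ≤ ord u x ↔ x ∈ u.asIdeal ^ n := by
  rw [ord, ← pow_dvd_iff_le_emultiplicity, Ideal.dvd_span_singleton]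

theorem ord_mul {u : HeightOneSpectrum (𝓞 F)} (x y : 𝓞 F) : ord u (x * y) = ord u x + ord u y := by
  rw [ord, ← Ideal.span_singleton_mul_span_singleton, emultiplicity_mul u.prime]
  rfl

theorem ord_sq {u : HeightOneSpectrum (𝓞 F)} (x : 𝓞 F) : ord u (x ^ 2) = ord u x + ord u x := by
  rw [pow_two, ord_mul]

theorem ord_locR {u : HeightOneSpectrum (𝓞 F)} {b : 𝓞 F} (hb : LocR u b) : ord u b = 1 := by
  have h1 : ((1 : ℕ) : ℕ∞) ≤ ord u b := le_ord.2 (by rw [pow_one]; exact hb.1)
  have h2 : ¬ ((2 : ℕ) : ℕ∞) ≤ ord u b := fun h => hb.2 (le_ord.1 h)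
  refine le_antisymm ?_ (by exact_mod_cast h1)
  by_contra h3
  apply h2
  push Not at h3
  have := Order.add_one_le_of_lt h3
  have h4 : (1 : ℕ∞) + 1 = ((2 : ℕ) : ℕ∞) := by norm_num
  rwa [h4] at this

theorem ord_key {u : HeightOneSpectrum (𝓞 F)} {b a e d n : 𝓞 F} (hb : LocR u b)
    (h : a ^ 2 - e ^ 2 * b = d ^ 2 * n) {k : ℕ} (hd : d ∈ u.asIdeal ^ k) :
    a ∈ u.asIdeal ^ k ∧ e ∈ u.asIdeal ^ k := by
  have hb1 := ord_locR hb
  -- the two cases
  have case1 : ∀ i : ℕ, ord u a = i → (i : ℕ∞) ≤ ord u e → k ≤ i := by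
    intro i hi hie
    by_contra hlt
    push Not at hlt
    have h1 : a ^ 2 ∈ u.asIdeal ^ (2 * i + 1) := by
      have h2 : a ^ 2 = d ^ 2 * n + e ^ 2 * b := by rw [← h]; ring
      rw [h2]
      refine Ideal.add_mem _ (Ideal.mul_mem_right _ _ ?_) ?_
      · have h3 := Ideal.pow_mem_pow hd 2
        rw [← pow_mul] at h3
        exact Ideal.pow_le_pow_right (by omega) h3
      · have h3 := Ideal.pow_mem_pow (le_ord.1 hie) 2
        have h4 := Ideal.mul_mem_mul h3 hb.1
        rw [← pow_mul, ← pow_succ] at h4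
        exact Ideal.pow_le_pow_right (by omega) h4
    have h5 := le_ord.2 h1
    rw [ord_sq, hi] at h5
    have h6 : 2 * i + 1 ≤ i + i := by exact_mod_cast h5
    omega
  have case2 : ∀ i : ℕ, ord u e = i → ((i + 1 : ℕ) : ℕ∞) ≤ ord u a → k ≤ i := by
    intro i hi hia
    by_contra hlt
    push Not at hlt
    have h1 : e ^ 2 * b ∈ u.asIdeal ^ (2 * i + 2) := by
      have h2 : e ^ 2 * b = a ^ 2 - d ^ 2 * n := by rw [← h]; ring
      rw [h2]
      refine Ideal.sub_mem _ ?_ (Ideal.mul_mem_right _ _ ?_)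
      · have h3 := Ideal.pow_mem_pow (le_ord.1 hia) 2
        rw [← pow_mul] at h3
        exact Ideal.pow_le_pow_right (by omega) h3
      · have h3 := Ideal.pow_mem_pow hd 2
        rw [← pow_mul] at h3
        exact Ideal.pow_le_pow_right (by omega) h3
    have h5 := le_ord.2 h1
    rw [ord_mul, ord_sq, hi, hb1] at h5
    have h6 : 2 * i + 2 ≤ i + i + 1 := by exact_mod_cast h5
    omega
  rw [← le_ord, ← le_ord]
  by_contra hcon
  rw [not_and_or, not_le, not_le] at hcon
  rcases le_or_gt (ord u a) (ord u e) with h1 | h1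
  · have h2 : ord u a < k := by
      rcases hcon with h3 | h3
      · exact h3
      · exact h1.trans_lt h3
    obtain ⟨i, hi⟩ := ENat.ne_top_iff_exists.1 (ne_top_of_lt h2)
    have h3 := case1 i hi.symm (by rw [hi]; exact h1)
    rw [← hi] at h2
    have h4 : i < k := by exact_mod_cast h2
    omega
  · have h2 : ord u e < k := by
      rcases hcon with h3 | h3
      · exact h1.trans h3
      · exact h3
    obtain ⟨i, hi⟩ := ENat.ne_top_iff_exists.1 (ne_top_of_lt h2)
    have h3 := case2 i hi.symm (by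
      have := Order.add_one_le_of_lt h1
      rw [← hi] at this
      push_cast
      exact this)
    rw [← hi] at h2
    have h4 : i < k := by exact_mod_cast h2
    omega

/-- clearing denominators at `u` -/
theorem exists_coprime {u : HeightOneSpectrum (𝓞 F)} {d : 𝓞 F} (hd : d ≠ 0) :
    ∃ k : ℕ, d ∈ u.asIdeal ^ k ∧ ∃ j, j ∉ u.asIdeal ∧ ∀ a ∈ u.asIdeal ^ k, ∃ a', j * a = d * a' := by
  have h0 : Ideal.span {d} ≠ (0 : Ideal (𝓞 F)) := by
    rw [Ne, Ideal.zero_eq_bot, Ideal.span_singleton_eq_bot]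
    exact hd
  have hf : FiniteMultiplicity u.asIdeal (Ideal.span {d}) :=
    FiniteMultiplicity.of_prime_left u.prime h0
  obtain ⟨J, hJ, hJu⟩ := hf.exists_eq_pow_mul_and_not_dvd
  rw [Ideal.dvd_iff_le] at hJu
  obtain ⟨j, hj, hju⟩ := SetLike.not_le_iff_exists.1 hJu
  refine ⟨multiplicity u.asIdeal (Ideal.span {d}), ?_, j, hju, ?_⟩
  · rw [← Ideal.dvd_span_singleton]
    exact Dvd.intro J hJ.symm
  · intro a ha
    have h1 : j * a ∈ Ideal.span {d} := by
      rw [hJ, mul_comm j a]
      exact Ideal.mul_mem_mul ha hj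
    exact (Ideal.mem_span_singleton'.1 h1).imp fun x hx => by rw [← hx]; ring

/-- the elements fixed by the whole group -/
theorem exists_al (b : Zbar F) (hb : ∀ g : GalK F, g • b = b) : ∃ y : 𝓞 F, al F y = b := by
  have h1 : Algebra.IsInvariant (𝓞 F) (Zbar F) (GalK F) := inferInstance
  exact h1.isInvariant b hb

theorem exists_neg {u : HeightOneSpectrum (𝓞 F)} {b : 𝓞 F} (hb : LocR u b) {s : Zbar F}
    (hs : s ^ 2 = al F b) : ∃ g : GalK F, g • s = -s := by
  by_contra hcon
  push Not at hcon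
  obtain ⟨y, hy⟩ := exists_al s fun g => (smul_sqrt hs g).resolve_right (hcon g)
  have h1 : y ^ 2 = b := al_inj (by rw [map_pow, hy, hs])
  have h2 := hb.1
  rw [← h1] at h2
  have h3 := u.isPrime.mem_of_pow_mem _ h2
  apply hb.2
  rw [← h1]
  exact Ideal.pow_mem_pow h3 2

/-- the integers of `F(√b)` modulo the prime above `u` -/
theorem res_locR {u : HeightOneSpectrum (𝓞 F)} {b : 𝓞 F} (hb : LocR u b) {s : Zbar F}
    (hs : s ^ 2 = al F b) (y : Zbar F) (hy : ∀ g : GalK F, g • s = s → g • y = y) :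
    ∃ t : 𝓞 F, ∀ P : Ideal (Zbar F), Above u P → y - al F t ∈ P := by
  obtain ⟨g0, hg0⟩ := exists_neg hb hs
  have hg0' : g0⁻¹ • s = -s := by
    rw [inv_smul_eq_iff, smul_neg, hg0, neg_neg]
  have hb0 : b ≠ 0 := by rintro rfl; exact hb.2 (Ideal.zero_mem _)
  have hsn := sqrt_ne hs hb0
  -- the conjugate
  have hA : ∀ g : GalK F, g • s = s → g • y = y ∧ g • g0 • y = g0 • y := by
    intro g hg
    refine ⟨hy g hg, ?_⟩
    have h1 := hy (g0⁻¹ * g * g0) (by
      rw [mul_smul, mul_smul, hg0, smul_neg, hg, smul_neg, hg0', neg_neg])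
    rw [mul_smul, mul_smul, inv_smul_eq_iff] at h1
    exact h1
  have hB : ∀ g : GalK F, g • s = -s → g • y = g0 • y ∧ g • g0 • y = y := by
    intro g hg
    constructor
    · have h1 := hy (g0⁻¹ * g) (by rw [mul_smul, hg, smul_neg, hg0', neg_neg])
      rw [mul_smul, inv_smul_eq_iff] at h1
      exact h1
    · have h1 := hy (g * g0) (by rw [mul_smul, hg0, smul_neg, hg, neg_neg])
      rwa [mul_smul] at h1
  obtain ⟨a1, ha1⟩ := exists_al (y + g0 • y) (by
    intro g
    rcases smul_sqrt hs g with h | h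
    · rw [smul_add, (hA g h).1, (hA g h).2]
    · rw [smul_add, (hB g h).1, (hB g h).2, add_comm])
  obtain ⟨e1, he1⟩ := exists_al ((y - g0 • y) * s) (by
    intro g
    rcases smul_sqrt hs g with h | h
    · rw [smul_mul', smul_sub, (hA g h).1, (hA g h).2, h]
    · rw [smul_mul', smul_sub, (hB g h).1, (hB g h).2, h]; ring)
  obtain ⟨n, hn⟩ := exists_al (y * g0 • y) (by
    intro g
    rcases smul_sqrt hs g with h | h
    · rw [smul_mul', (hA g h).1, (hA g h).2]
    · rw [smul_mul', (hB g h).1, (hB g h).2, mul_comm])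
  -- `d y = a + e s`
  have hd0 : (2 * b : 𝓞 F) ≠ 0 := mul_ne_zero two_ne_zero hb0
  have hrel : (b * a1) ^ 2 - e1 ^ 2 * b = (2 * b) ^ 2 * n := by
    apply al_inj
    simp only [map_sub, map_mul, map_pow, map_ofNat]
    rw [ha1, he1, hn, ← hs]
    ring
  have hdy : al F (2 * b) * y = al F (b * a1) + al F e1 * s := by
    simp only [map_mul, map_ofNat]
    rw [ha1, he1, ← hs]
    ring
  obtain ⟨k, hk, j, hj, hjk⟩ := exists_coprime (u := u) hd0
  obtain ⟨h1, h2⟩ := ord_key hb hrel hk
  obtain ⟨a', ha'⟩ := hjk _ h1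
  obtain ⟨e', he'⟩ := hjk _ h2
  have hjy : al F j * y = al F a' + al F e' * s := by
    have h3 : al F (2 * b) ≠ 0 := fun h => hd0 (al_inj (by rw [h, map_zero]))
    apply mul_left_cancel₀ h3
    have h4 : al F j * al F (b * a1) = al F (2 * b) * al F a' := by rw [← map_mul, ← map_mul, ha']
    have h5 : al F j * al F e1 = al F (2 * b) * al F e' := by rw [← map_mul, ← map_mul, he']
    linear_combination al F j * hdy + h4 + s * h5
  have hum : u.asIdeal.IsMaximal := u.isMaximal
  obtain ⟨w, hw⟩ : ∃ w : 𝓞 F, 1 - w * j ∈ u.asIdeal := by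
    obtain ⟨w, i, hi, hwi⟩ := hum.exists_inv hj
    exact ⟨w, by rw [← hwi, add_sub_cancel_left]; exact hi⟩
  refine ⟨w * a', fun P hP => ?_⟩
  have hPp := hP.1
  have hsP : s ∈ P := by
    have h6 : s ^ 2 ∈ P := by rw [hs]; exact (mem_al hP b).2 hb.1
    exact hPp.mem_of_pow_mem _ h6
  have h7 : y - al F (w * a') = y * al F (1 - w * j) + al F w * al F e' * s := by
    simp only [map_sub, map_mul, map_one]
    linear_combination al F w * hjy
  rw [h7]
  exact P.add_mem (P.mul_mem_left _ ((mem_al hP _).2 hw)) (P.mul_mem_left _ hsP)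

theorem finite_adjoin (s : Zbar F) : FiniteDimensional F (F⟮(s : AlgebraicClosure F)⟯) :=
  IntermediateField.adjoin.finiteDimensional (Algebra.IsIntegral.isIntegral _)

/-- (R2): a Frobenius element fixes `√b` -/
theorem locR_frob {b : 𝓞 F} {u : HeightOneSpectrum (𝓞 F)} {Q : Ideal (Zbar F)}
    (hu : Above u Q) (hb : LocR u b) {s : Zbar F} (hs : s ^ 2 = al F b) :
    ∃ g : GalK F, Acts Q g (nm u) ∧ g • s = s := by
  have hfd := finite_adjoin s
  have hnf := numberField_of (F⟮(s : AlgebraicClosure F)⟯)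
  obtain ⟨w, hw⟩ := over_exists (F⟮(s : AlgebraicClosure F)⟯) hu
  obtain ⟨g, hg, hgQ⟩ := exists_frob hw
  refine ⟨g, ?_, (mem_fix s g).1 hg⟩
  have hnm : nm w = nm u := by
    have hl : w.asIdeal.LiesOver u.asIdeal := ⟨under_eq hu hw⟩
    have hum : u.asIdeal.IsMaximal := u.isMaximal
    letI : Field (𝓞 F ⧸ u.asIdeal) := Ideal.Quotient.field _
    have : Nontrivial (𝓞 (F⟮(s : AlgebraicClosure F)⟯) ⧸ w.asIdeal) :=
      Ideal.Quotient.nontrivial_iff.2 w.isPrime.ne_top
    have h1 : Function.Bijective (algebraMap (𝓞 F ⧸ u.asIdeal)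
        (𝓞 (F⟮(s : AlgebraicClosure F)⟯) ⧸ w.asIdeal)) := by
      refine ⟨RingHom.injective _, fun x => ?_⟩
      obtain ⟨x, rfl⟩ := Ideal.Quotient.mk_surjective x
      obtain ⟨t, ht⟩ := res_locR hb hs (incl _ x) (fun g hg =>
        smul_incl ((mem_fix s g).2 hg) x)
      refine ⟨Ideal.Quotient.mk _ t, ?_⟩
      show Ideal.Quotient.mk w.asIdeal (algebraMap (𝓞 F) _ t) = Ideal.Quotient.mk w.asIdeal x
      rw [eq_comm, Ideal.Quotient.eq, mem_v hw, map_sub, incl_algebraMap]
      exact ht Q hu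
    exact (Nat.card_congr (Equiv.ofBijective _ h1)).symm
  rw [← hnm]
  exact hgQ

/-- (R1): an inertia element moves `√b` -/
theorem locR_inertia {b : 𝓞 F} {u : HeightOneSpectrum (𝓞 F)} {Q : Ideal (Zbar F)}
    (hu : Above u Q) (hb : LocR u b) {s : Zbar F} (hs : s ^ 2 = al F b) :
    ∃ g : GalK F, Acts Q g 1 ∧ g • s = -s := by
  have hfd := finite_adjoin s
  obtain ⟨g0, hg0⟩ := exists_neg hb hs
  have hQ := hu.1
  have hgQ : Above u (g0 • Q) := ⟨inferInstance, by rw [← hu.2]; exact Ideal.under_smul (𝓞 F) Q g0⟩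
  have hbel : below (F⟮(s : AlgebraicClosure F)⟯) (g0 • Q) =
      below (F⟮(s : AlgebraicClosure F)⟯) Q := by
    ext x
    obtain ⟨t, ht⟩ := res_locR hb hs (incl _ x) (fun g hg =>
      smul_incl ((mem_fix s g).2 hg) x)
    have h1 : ∀ P : Ideal (Zbar F), Above u P → (incl (F⟮(s : AlgebraicClosure F)⟯) x ∈ P ↔
        t ∈ u.asIdeal) := by
      intro P hP
      rw [← mem_al hP]
      constructor
      · intro h2
        have := P.sub_mem h2 (ht P hP)
        rwa [sub_sub_cancel] at this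
      · intro h2
        have := P.add_mem (ht P hP) h2
        rwa [sub_add_cancel] at this
    exact (h1 _ hgQ).trans (h1 _ hu).symm
  obtain ⟨m, hm, hmQ⟩ := trans_over _ hgQ.1 hQ hbel
  have hD : m * g0 ∈ Dec Q := by
    rw [MulAction.mem_stabilizer_iff, mul_smul, ← hmQ]
  have hms : (m * g0) • s = -s := by
    rw [mul_smul, hg0, smul_neg, (mem_fix s m).1 hm]
  obtain ⟨w, hw⟩ := over_exists (F⟮(s : AlgebraicClosure F)⟯) hu
  obtain ⟨m', hm', -, hact⟩ := lift_triv _ hw hD (by
    intro x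
    obtain ⟨t, ht⟩ := res_locR hb hs (incl _ x) (fun g hg =>
      smul_incl ((mem_fix s g).2 hg) x)
    have h1 := ht Q hu
    have h2 := dec_mem hD h1
    rw [smul_sub, smul_al] at h2
    have := Q.sub_mem h2 h1
    rwa [sub_sub_sub_cancel_right] at this)
  refine ⟨_, hact, ?_⟩
  rw [mul_smul, hms, smul_neg, (mem_fix s m'⁻¹).1 (inv_mem hm')]

end Pool.Agent.H19.QT
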