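import Pool.Agent.H19.QT.Gen

/-!
# QT.Sqrt : the action of decomposition and inertia groups on square roots
-/

set_option autoImplicit false

open scoped Pointwise NumberField
open Matrix IsDedekindDomain Pool.Agent.H71.Patch Pool.Agent.H51.QT

namespace Pool.Agent.H19.QT

variable {F : Type} [Field F] [NumberField F]

/-- the inclusion of `𝓞 F` -/
noncomputable abbrev al (F : Type) [Field F] [NumberField F] : 𝓞 F →+* Zbar F :=
  algebraMap (𝓞 F) (Zbar F)

theorem al_inj : Function.Injective (al F) := FaithfulSMul.algebraMap_injective (𝓞 F) (Zbar F)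

theorem smul_al (g : GalK F) (x : 𝓞 F) : g • al F x = al F x := by
  apply Subtype.ext
  exact g.commutes _

theorem smul_two (g : GalK F) : g • (2 : Zbar F) = 2 := by
  rw [← one_add_one_eq_two, smul_add, smul_one]

theorem smul_sqrt {b : 𝓞 F} {s : Zbar F} (hs : s ^ 2 = al F b) (g : GalK F) :
    g • s = s ∨ g • s = -s := by
  have h1 : (g • s) ^ 2 = s ^ 2 := by rw [← smul_pow', hs, smul_al]
  exact sq_eq_sq_iff_eq_or_eq_neg.1 h1

theorem exists_sqrt (b : 𝓞 F) : ∃ s : Zbar F, s ^ 2 = al F b := by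
  obtain ⟨s0, hs0⟩ := IsAlgClosed.exists_pow_nat_eq ((al F b : Zbar F) : AlgebraicClosure F)
    (n := 2) (by norm_num)
  have hs0i : IsIntegral (𝓞 F) s0 := by
    refine IsIntegral.of_pow (n := 2) (by norm_num) ?_
    rw [hs0]
    exact (al F b).2
  exact ⟨⟨s0, hs0i⟩, Subtype.ext (by push_cast; exact hs0)⟩

/-- the auxiliary integer `z` with `(2 z + w) / w = sqrt (b / c)` -/
theorem exists_z {b w y c : 𝓞 F} (hc : c ≠ 0) (h : b * w = c * (w + 4 * y)) {s t : Zbar F}
    (hs : s ^ 2 = al F b) (ht : t ^ 2 = al F c) :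
    ∃ z : Zbar F, z * (z + al F w) = al F w * al F y ∧ s * al F w = t * (2 * z + al F w) := by
  have ht0 : (t : AlgebraicClosure F) ≠ 0 := by
    intro h1
    apply hc
    apply al_inj
    rw [map_zero, ← ht]
    have : t = 0 := Subtype.ext h1
    rw [this]; ring
  have e1 : ((s : AlgebraicClosure F)) ^ 2 = ((al F b : Zbar F) : AlgebraicClosure F) := by
    rw [← hs]; push_cast; rfl
  have e2 : ((t : AlgebraicClosure F)) ^ 2 = ((al F c : Zbar F) : AlgebraicClosure F) := by
    rw [← ht]; push_cast; rfl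
  have e3 : ((al F b : Zbar F) : AlgebraicClosure F) * ((al F w : Zbar F) : AlgebraicClosure F) =
      ((al F c : Zbar F) : AlgebraicClosure F) * (((al F w : Zbar F) : AlgebraicClosure F) +
        4 * ((al F y : Zbar F) : AlgebraicClosure F)) := by
    have := congrArg (fun x => ((al F x : Zbar F) : AlgebraicClosure F)) h
    simp only [map_mul, map_add, map_ofNat] at this
    push_cast at this
    exact this
  rw [← e1, ← e2] at e3
  obtain ⟨S, hS⟩ : ∃ S, S = (s : AlgebraicClosure F) := ⟨_, rfl⟩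
  obtain ⟨T, hT⟩ : ∃ T, T = (t : AlgebraicClosure F) := ⟨_, rfl⟩
  obtain ⟨W, hW⟩ : ∃ W, W = ((al F w : Zbar F) : AlgebraicClosure F) := ⟨_, rfl⟩
  obtain ⟨Y, hY⟩ : ∃ Y, Y = ((al F y : Zbar F) : AlgebraicClosure F) := ⟨_, rfl⟩
  rw [← hS, ← hT, ← hW, ← hY] at e3
  rw [← hT] at ht0
  have h2 : (2 : AlgebraicClosure F) ≠ 0 := two_ne_zero
  have hz : (S * W / T - W) / 2 * ((S * W / T - W) / 2 + W) = W * Y := by
    field_simp
    linear_combination W * e3
  have hint : IsIntegral (𝓞 F) ((S * W / T - W) / 2) := by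
    refine ⟨Polynomial.X ^ 2 + Polynomial.C w * Polynomial.X - Polynomial.C (w * y), ?_, ?_⟩
    · have : (Polynomial.X ^ 2 + Polynomial.C w * Polynomial.X - Polynomial.C (w * y) :
          Polynomial (𝓞 F)) = Polynomial.X ^ 2 + (Polynomial.C w * Polynomial.X -
            Polynomial.C (w * y)) := by ring
      rw [this]
      refine Polynomial.monic_X_pow_add ?_
      refine (Polynomial.degree_sub_le _ _).trans_lt ?_
      rw [max_lt_iff]
      constructor
      · exact (Polynomial.degree_C_mul_X_le w).trans_lt (by norm_num)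
      · exact Polynomial.degree_C_le.trans_lt (by norm_num)
    · rw [Polynomial.eval₂_sub, Polynomial.eval₂_add, Polynomial.eval₂_pow, Polynomial.eval₂_X,
        Polynomial.eval₂_mul, Polynomial.eval₂_C, Polynomial.eval₂_X, Polynomial.eval₂_C]
      have hw' : algebraMap (𝓞 F) (AlgebraicClosure F) w = W := hW.symm
      have hy' : algebraMap (𝓞 F) (AlgebraicClosure F) y = Y := hY.symm
      rw [map_mul, hw', hy']
      linear_combination hz
  refine ⟨⟨(S * W / T - W) / 2, hint⟩, Subtype.ext ?_, Subtype.ext ?_⟩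
  · show (S * W / T - W) / 2 * ((S * W / T - W) / 2 + ((al F w : Zbar F) : AlgebraicClosure F)) =
      ((al F w : Zbar F) : AlgebraicClosure F) * ((al F y : Zbar F) : AlgebraicClosure F)
    rw [← hW, ← hY]
    exact hz
  · show (s : AlgebraicClosure F) * ((al F w : Zbar F) : AlgebraicClosure F) =
      (t : AlgebraicClosure F) * (2 * ((S * W / T - W) / 2) +
        ((al F w : Zbar F) : AlgebraicClosure F))
    rw [← hW, ← hT, ← hS]
    field_simp
    ring

/-- `b` is close to `c` at `u` -/
def LocC (c : 𝓞 F) (u : HeightOneSpectrum (𝓞 F)) (b : 𝓞 F) : Prop :=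
  ∃ w y, w ∉ u.asIdeal ∧ y ∈ u.asIdeal ∧ b * w = c * (w + 4 * y)

/-- `F(√b)` is the unramified quadratic extension at `u` -/
def LocU (u : HeightOneSpectrum (𝓞 F)) (b : 𝓞 F) : Prop :=
  ∃ w y, w ∉ u.asIdeal ∧ b ∉ u.asIdeal ∧ b * w = w + 4 * y ∧
    ∀ t : 𝓞 F, t ^ 2 + w * t - w * y ∉ u.asIdeal

/-- `b` is a uniformizer at `u` -/
def LocR (u : HeightOneSpectrum (𝓞 F)) (b : 𝓞 F) : Prop :=
  b ∈ u.asIdeal ∧ b ∉ u.asIdeal ^ 2

theorem mem_al {u : HeightOneSpectrum (𝓞 F)} {Q : Ideal (Zbar F)} (hu : Above u Q) (x : 𝓞 F) :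
    al F x ∈ Q ↔ x ∈ u.asIdeal := (mem_u hu x).symm

theorem sqrt_ne {b : 𝓞 F} {s : Zbar F} (hs : s ^ 2 = al F b) (hb : b ≠ 0) : s ≠ -s := by
  intro h
  have h1 : s = 0 := by
    have h2 : (2 : Zbar F) * s = 0 := by linear_combination h
    exact (mul_eq_zero.1 h2).resolve_left two_ne_zero
  apply hb
  apply al_inj
  rw [← hs, h1, map_zero]
  ring

/-- (C): the decomposition group acts in the same way on `√b` and `√c` -/
theorem locC_iff {b c : 𝓞 F} {u : HeightOneSpectrum (𝓞 F)} {Q : Ideal (Zbar F)} (hu : Above u Q)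
    (hc : c ≠ 0) (h : LocC c u b) {s t : Zbar F} (hs : s ^ 2 = al F b) (ht : t ^ 2 = al F c)
    {g : GalK F} (hg : g ∈ Dec Q) : g • s = s ↔ g • t = t := by
  obtain ⟨w, y, hw, hy, hbc⟩ := h
  have hQ := hu.1
  have hw0 : w ≠ 0 := by rintro rfl; exact hw (Ideal.zero_mem _)
  have hwy : w + 4 * y ∉ u.asIdeal := fun h1 => hw (by
    have := Ideal.sub_mem _ h1 (Ideal.mul_mem_left _ 4 hy)
    rwa [add_sub_cancel_right] at this)
  have hb : b ≠ 0 := by
    rintro rfl
    rw [zero_mul, eq_comm, mul_eq_zero] at hbc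
    rcases hbc with h1 | h1
    · exact hc h1
    · exact hwy (by rw [h1]; exact Ideal.zero_mem _)
  have hwQ : al F w ∉ Q := fun h1 => hw ((mem_al hu w).1 h1)
  obtain ⟨z, hz1, hz2⟩ := exists_z hc hbc hs ht
  have ht0 : t ≠ 0 := by
    rintro rfl
    apply hc
    apply al_inj
    rw [← ht, map_zero]; ring
  -- the opposite signs are impossible
  have key : ∀ ε : Zbar F, ε ≠ 0 → g • t = ε * t → g • s = -(ε * s) → False := by
    intro ε hε h1 h2
    have h3 := congrArg (fun x => g • x) hz2
    simp only [smul_mul', smul_add, smul_al, smul_two] at h3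
    rw [h1, h2] at h3
    have h4 : ε * t * (2 * (g • z) + al F w + (2 * z + al F w)) = 0 := by
      linear_combination -h3 - ε * hz2
    have h5 := (mul_eq_zero.1 h4).resolve_left (mul_ne_zero hε ht0)
    have h6 : g • z = -z - al F w := by
      have h7 : (2 : Zbar F) * (g • z + z + al F w) = 0 := by linear_combination h5
      have h8 := (mul_eq_zero.1 h7).resolve_left two_ne_zero
      linear_combination h8
    have h9 : z * (z + al F w) ∈ Q := by
      rw [hz1]
      exact Q.mul_mem_left _ ((mem_al hu y).2 hy)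
    rcases hQ.mem_or_mem h9 with h10 | h10
    · have h11 := dec_mem hg h10
      rw [h6] at h11
      have h12 := Q.add_mem h11 h10
      have h13 : -z - al F w + z = - al F w := by ring
      rw [h13, neg_mem_iff] at h12
      exact hwQ h12
    · have h11 := dec_mem hg h10
      rw [smul_add, smul_al, h6] at h11
      have h13 : -z - al F w + al F w = -z := by ring
      rw [h13, neg_mem_iff] at h11
      have h12 := Q.sub_mem h10 h11
      rw [add_sub_cancel_left] at h12
      exact hwQ h12
  have hns := sqrt_ne hs hb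
  have hnt := sqrt_ne ht hc
  constructor
  · intro h1
    rcases smul_sqrt ht g with h2 | h2
    · exact h2
    · exfalso
      exact key (-1) (neg_ne_zero.2 one_ne_zero) (by rw [h2]; ring) (by rw [h1]; ring)
  · intro h1
    rcases smul_sqrt hs g with h2 | h2
    · exact h2
    · exfalso
      exact key 1 one_ne_zero (by rw [h1]; ring) (by rw [h2]; ring)

/-- elements of a domain fixed by the power map are in the finite field -/
theorem mem_range_of_pow {k D : Type*} [Field k] [Finite k] [CommRing D] [IsDomain D] (f : k →+* D)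
    (z : D) (hz : z ^ Nat.card k = z) : ∃ a, f a = z := by
  classical
  cases nonempty_fintype k
  by_contra hcon
  push Not at hcon
  rw [Nat.card_eq_fintype_card] at hz
  have h1 : 1 < Fintype.card k := Fintype.one_lt_card
  have h2 : (Polynomial.X ^ Fintype.card k - Polynomial.X : Polynomial D).natDegree =
      Fintype.card k := by
    rw [Polynomial.natDegree_sub_eq_left_of_natDegree_lt] <;> simp [h1]
  have h3 : (Polynomial.X ^ Fintype.card k - Polynomial.X : Polynomial D) ≠ 0 := by
    intro h4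
    rw [h4, Polynomial.natDegree_zero] at h2
    omega
  have h4 := Polynomial.card_le_degree_of_subset_roots
    (p := (Polynomial.X ^ Fintype.card k - Polynomial.X : Polynomial D))
    (Z := insert z (Finset.univ.image f)) (by
      intro x hx
      rw [Finset.insert_val, Multiset.mem_ndinsert] at hx
      rw [Polynomial.mem_roots h3, Polynomial.IsRoot.def, Polynomial.eval_sub, Polynomial.eval_pow,
        Polynomial.eval_X, sub_eq_zero]
      rcases hx with rfl | hx
      · exact hz
      · obtain ⟨a, -, rfl⟩ := Finset.mem_image.1 hx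
        rw [← map_pow, FiniteField.pow_card])
  rw [h2, Finset.card_insert_of_notMem (by
    intro h5
    obtain ⟨a, -, ha⟩ := Finset.mem_image.1 h5
    exact hcon a ha), Finset.card_image_of_injective _ f.injective, Finset.card_univ] at h4
  omega

theorem exists_res {u : HeightOneSpectrum (𝓞 F)} {Q : Ideal (Zbar F)} (hu : Above u Q) (z : Zbar F)
    (hz : z - z ^ nm u ∈ Q) : ∃ t : 𝓞 F, z - al F t ∈ Q := by
  have hQ := hu.1
  have hum : u.asIdeal.IsMaximal := u.isMaximal
  letI : Field (𝓞 F ⧸ u.asIdeal) := Ideal.Quotient.field _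
  have := nm_finite u
  have hlo : Q.LiesOver u.asIdeal := ⟨hu.2.symm⟩
  obtain ⟨a, ha⟩ := mem_range_of_pow (algebraMap (𝓞 F ⧸ u.asIdeal) (Zbar F ⧸ Q))
    (Ideal.Quotient.mk Q z) (by
      rw [← map_pow, eq_comm, Ideal.Quotient.eq]
      exact hz)
  obtain ⟨t, rfl⟩ := Ideal.Quotient.mk_surjective a
  refine ⟨t, ?_⟩
  rw [← Ideal.Quotient.eq, ← ha]
  rfl

/-- (U1): inertia fixes `√b` -/
theorem locU_inertia {b : 𝓞 F} {u : HeightOneSpectrum (𝓞 F)} {Q : Ideal (Zbar F)}
    (hu : Above u Q) (h : LocU u b) {s : Zbar F} (hs : s ^ 2 = al F b) {g : GalK F}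
    (hg : Acts Q g 1) : g • s = s := by
  obtain ⟨w, y, hw, hb, hbw, -⟩ := h
  have hQ := hu.1
  obtain ⟨z, hz1, hz2⟩ := exists_z (c := 1) (t := 1) one_ne_zero (by rw [hbw, one_mul]) hs
    (by rw [one_pow, map_one])
  rcases smul_sqrt hs g with h2 | h2
  · exact h2
  exfalso
  have h3 := congrArg (fun x => g • x) hz2
  simp only [smul_mul', smul_add, smul_al, smul_two, smul_one] at h3
  rw [h2] at h3
  have h6 : g • z = -z - al F w := by
    have h7 : (2 : Zbar F) * (g • z + z + al F w) = 0 := by linear_combination -h3 - hz2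
    have h8 := (mul_eq_zero.1 h7).resolve_left two_ne_zero
    linear_combination h8
  have h9 := hg z
  rw [pow_one, h6] at h9
  have h10 : (s * al F w) ∈ Q := by
    have : s * al F w = -(-z - al F w - z) := by rw [hz2]; ring
    rw [this]
    exact Q.neg_mem h9
  rcases hQ.mem_or_mem h10 with h11 | h11
  · apply hb
    rw [← mem_al hu, ← hs]
    exact Q.pow_mem_of_mem h11 2 (by norm_num)
  · exact hw ((mem_al hu w).1 h11)

/-- (U2): Frobenius elements move `√b` -/
theorem locU_frob {b : 𝓞 F} {u : HeightOneSpectrum (𝓞 F)} {Q : Ideal (Zbar F)}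
    (hu : Above u Q) (h : LocU u b) {s : Zbar F} (hs : s ^ 2 = al F b) {g : GalK F}
    (hg : Acts Q g (nm u)) : g • s ≠ s := by
  obtain ⟨w, y, hw, hb, hbw, hirr⟩ := h
  have hQ := hu.1
  obtain ⟨z, hz1, hz2⟩ := exists_z (c := 1) (t := 1) one_ne_zero (by rw [hbw, one_mul]) hs
    (by rw [one_pow, map_one])
  intro h2
  have h3 := congrArg (fun x => g • x) hz2
  simp only [smul_mul', smul_add, smul_al, smul_two, smul_one] at h3
  rw [h2] at h3
  have h6 : g • z = z := by
    have h7 : (2 : Zbar F) * (g • z - z) = 0 := by linear_combination hz2 - h3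
    have h8 := (mul_eq_zero.1 h7).resolve_left two_ne_zero
    linear_combination h8
  have h9 := hg z
  rw [h6] at h9
  obtain ⟨t, ht⟩ := exists_res hu z h9
  apply hirr t
  rw [← mem_al hu]
  have h10 : al F (t ^ 2 + w * t - w * y) = -((z - al F t) * (z + al F t + al F w)) := by
    simp only [map_sub, map_add, map_pow, map_mul]
    linear_combination hz1
  rw [h10]
  exact Q.neg_mem (Q.mul_mem_right _ ht)

end Pool.Agent.H19.QT
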