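import Pool.Agent.H19.QT.TameDef
import Pool.Agent.H19.QT.Crt

/-!
# QT.Tame : the tame relation

`unit_smul` : `g z / z` is a unit at `Q` for `g` in the decomposition group of `Q`.
`tame` : if `φ` acts on the residue field as the power `n`, then `φ i φ⁻¹ = i ^ n` modulo the wild
inertia group, for `i` in the inertia group.
-/

set_option autoImplicit false

open scoped Pointwise NumberField IntermediateField
open Matrix IsDedekindDomain Pool.Agent.H71.Patch Pool.Agent.H51.QT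

namespace Pool.Agent.H19.QT

variable {F : Type} [Field F] [NumberField F]


section alg

variable {Q : Ideal (Zbar F)}

theorem val_ne (hQ : Q.IsPrime) {d : Zbar F} (hd : d ∉ Q) : (d : AlgebraicClosure F) ≠ 0 := by
  intro h
  apply hd
  have : d = 0 := Subtype.ext h
  rw [this]; exact Q.zero_mem

theorem UnitQ.mul (hQ : Q.IsPrime) {x y : AlgebraicClosure F} (hx : UnitQ Q x) (hy : UnitQ Q y) :
    UnitQ Q (x * y) := by
  obtain ⟨a, d, ha, hd, h⟩ := hx
  obtain ⟨a', d', ha', hd', h'⟩ := hy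
  refine ⟨a * a', d * d', fun h1 => (hQ.mem_or_mem h1).elim ha ha',
    fun h1 => (hQ.mem_or_mem h1).elim hd hd', ?_⟩
  push_cast
  linear_combination (y * (d' : AlgebraicClosure F)) * h + (a : AlgebraicClosure F) * h'

theorem UnitQ.ne (hQ : Q.IsPrime) {x : AlgebraicClosure F} (hx : UnitQ Q x) : x ≠ 0 := by
  rintro rfl
  obtain ⟨a, d, ha, hd, h⟩ := hx
  rw [zero_mul] at h
  exact val_ne hQ ha h.symm

theorem UnitQ.inv (hQ : Q.IsPrime) {x : AlgebraicClosure F} (hx : UnitQ Q x) : UnitQ Q x⁻¹ := by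
  have h0 := hx.ne hQ
  obtain ⟨a, d, ha, hd, h⟩ := hx
  refine ⟨d, a, hd, ha, ?_⟩
  rw [← h]
  field_simp

theorem OneQ.unit (hQ : Q.IsPrime) {x : AlgebraicClosure F} (hx : OneQ Q x) : UnitQ Q x := by
  obtain ⟨a, d, hd, had, h⟩ := hx
  refine ⟨a, d, fun ha => hd ?_, hd, h⟩
  have := Q.sub_mem ha had
  rwa [sub_sub_cancel] at this

theorem OneQ.mul (hQ : Q.IsPrime) {x y : AlgebraicClosure F} (hx : OneQ Q x) (hy : OneQ Q y) :
    OneQ Q (x * y) := by
  obtain ⟨a, d, hd, had, h⟩ := hx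
  obtain ⟨a', d', hd', had', h'⟩ := hy
  refine ⟨a * a', d * d', fun h1 => (hQ.mem_or_mem h1).elim hd hd', ?_, ?_⟩
  · have : a * a' - d * d' = a * (a' - d') + (a - d) * d' := by ring
    rw [this]
    exact Q.add_mem (Q.mul_mem_left _ had') (Q.mul_mem_right _ had)
  · push_cast
    linear_combination (y * (d' : AlgebraicClosure F)) * h + (a : AlgebraicClosure F) * h'

theorem OneQ.inv (hQ : Q.IsPrime) {x : AlgebraicClosure F} (hx : OneQ Q x) : OneQ Q x⁻¹ := by
  have h0 := (hx.unit hQ).ne hQ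
  obtain ⟨a, d, hd, had, h⟩ := hx
  refine ⟨d, a, fun ha => hd ?_, ?_, ?_⟩
  · have := Q.sub_mem ha had
    rwa [sub_sub_cancel] at this
  · rw [← neg_sub]; exact Q.neg_mem had
  · rw [← h]
    field_simp

theorem oneQ_one (hQ : Q.IsPrime) : OneQ Q (1 : AlgebraicClosure F) :=
  ⟨1, 1, fun h => hQ.ne_top ((Ideal.eq_top_iff_one _).2 h), by rw [sub_self]; exact Q.zero_mem,
    by push_cast; ring⟩

theorem OneQ.pow (hQ : Q.IsPrime) {x : AlgebraicClosure F} (hx : OneQ Q x) (n : ℕ) : OneQ Q (x ^ n) := by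
  induction n with
  | zero => rw [pow_zero]; exact oneQ_one hQ
  | succ n ih => rw [pow_succ]; exact ih.mul hQ hx

theorem smul_val (g : GalK F) (a : Zbar F) : ((g • a : Zbar F) : AlgebraicClosure F) = g (a : AlgebraicClosure F) := rfl

theorem smul_notMem {g : GalK F} (hg : g ∈ Dec Q) {a : Zbar F} (ha : a ∉ Q) : g • a ∉ Q := by
  intro h
  have := dec_mem (inv_mem hg) h
  rw [inv_smul_smul] at this
  exact ha this

theorem UnitQ.smul {g : GalK F} (hg : g ∈ Dec Q) {x : AlgebraicClosure F} (hx : UnitQ Q x) : UnitQ Q (g x) := by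
  obtain ⟨a, d, ha, hd, h⟩ := hx
  refine ⟨g • a, g • d, smul_notMem hg ha, smul_notMem hg hd, ?_⟩
  rw [smul_val, smul_val, ← map_mul, h]

theorem OneQ.smul {g : GalK F} (hg : g ∈ Dec Q) {x : AlgebraicClosure F} (hx : OneQ Q x) : OneQ Q (g x) := by
  obtain ⟨a, d, hd, had, h⟩ := hx
  refine ⟨g • a, g • d, smul_notMem hg hd, ?_, ?_⟩
  · rw [← smul_sub]
    exact dec_mem hg had
  · rw [smul_val, smul_val, ← map_mul, h]

/-- the action on the residue field -/
theorem oneQ_act (hQ : Q.IsPrime) {g : GalK F} {n : ℕ} (hg : Acts Q g n) {x : AlgebraicClosure F}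
    (hx : UnitQ Q x) : OneQ Q (g x / x ^ n) := by
  have hx0 := hx.ne hQ
  obtain ⟨a, d, ha, hd, h⟩ := hx
  have hgD := acts_dec hQ hg
  have hgd := smul_notMem hgD hd
  refine ⟨(g • a) * d ^ n, (g • d) * a ^ n, fun h1 => ?_, ?_, ?_⟩
  · rcases hQ.mem_or_mem h1 with h2 | h2
    · exact hgd h2
    · exact ha (hQ.mem_of_pow_mem _ h2)
  · have : (g • a) * d ^ n - (g • d) * a ^ n =
        (g • a - a ^ n) * d ^ n - (g • d - d ^ n) * a ^ n := by ring
    rw [this]
    exact Q.sub_mem (Q.mul_mem_right _ (hg a)) (Q.mul_mem_right _ (hg d))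
  · push_cast
    rw [smul_val, smul_val, ← h, map_mul, mul_pow]
    field_simp

end alg

/-- an element of the algebraic closure is a unit at `Q`, or in the maximal ideal, or its inverse is -/
theorem dich {u : HeightOneSpectrum (𝓞 F)} {Q : Ideal (Zbar F)} (hu : Above u Q) {x : AlgebraicClosure F}
    (hx : x ≠ 0) : UnitQ Q x ∨ (∃ a ∈ Q, ∃ d ∉ Q, x * (d : AlgebraicClosure F) = a) ∨
      ∃ a ∈ Q, ∃ d ∉ Q, x⁻¹ * (d : AlgebraicClosure F) = a := by
  obtain ⟨M, hfd, hxm⟩ : ∃ M : IntermediateField F (AlgebraicClosure F), FiniteDimensional F M ∧ x ∈ M :=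
    ⟨F⟮x⟯, IntermediateField.adjoin.finiteDimensional (Algebra.IsIntegral.isIntegral _),
      IntermediateField.mem_adjoin_simple_self F _⟩
  have hnf := numberField_of M
  obtain ⟨w, hw⟩ := over_exists M hu
  obtain ⟨α, β, -, hαβ⟩ := IsFractionRing.div_surjective (A := 𝓞 M) (⟨x, hxm⟩ : M)
  have h3 : x = ((incl M α : Zbar F) : AlgebraicClosure F) / ((incl M β : Zbar F) : AlgebraicClosure F) :=
    (congrArg (Subtype.val) hαβ).symm
  have hα : α ≠ 0 := by
    rintro rfl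
    apply hx
    rw [h3, map_zero]
    simp
  have hβ : β ≠ 0 := by
    rintro rfl
    apply hx
    rw [h3, map_zero]
    simp
  have hα' : ((incl M α : Zbar F) : AlgebraicClosure F) ≠ 0 := by
    intro h
    exact hα (incl_inj _ (by rw [map_zero]; exact Subtype.ext h))
  have hβ' : ((incl M β : Zbar F) : AlgebraicClosure F) ≠ 0 := by
    intro h
    exact hβ (incl_inj _ (by rw [map_zero]; exact Subtype.ext h))
  have hmul : ∀ a b c d : 𝓞 M, a * b = c * d →
      ((incl M a : Zbar F) : AlgebraicClosure F) * ((incl M b : Zbar F) : AlgebraicClosure F) =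
      ((incl M c : Zbar F) : AlgebraicClosure F) * ((incl M d : Zbar F) : AlgebraicClosure F) := by
    intro a b c d h
    have := congrArg (fun y => ((incl M y : Zbar F) : AlgebraicClosure F)) h
    simp only [map_mul] at this
    push_cast at this
    exact this
  obtain ⟨k, hk, j, hj, h1, h2⟩ := exists_coprime' (u := w) hβ
  have hjQ : incl M j ∉ Q := fun h => hj ((mem_v hw j).2 h)
  by_cases hαk : α ∈ w.asIdeal ^ k
  · by_cases hαk' : α ∈ w.asIdeal ^ (k + 1)
    · obtain ⟨a', ha', he⟩ := h2 α hαk'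
      refine Or.inr (Or.inl ⟨incl _ a', (mem_v hw a').1 ha', incl _ j, hjQ, ?_⟩)
      rw [h3, div_mul_eq_mul_div, div_eq_iff hβ']
      linear_combination hmul _ _ _ _ he
    · obtain ⟨a', he⟩ := h1 α hαk
      have ha' : a' ∉ w.asIdeal := by
        intro h4
        apply hαk'
        rw [← le_ord]
        have h5 := congrArg (ord w) he
        rw [ord_mul, ord_mul, hk] at h5
        have hj0 : ord w j = 0 := by
          have h6 : ¬ ((1 : ℕ) : ℕ∞) ≤ ord w j := by rw [le_ord, pow_one]; exact hj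
          push Not at h6
          exact ENat.lt_one_iff_eq_zero.1 (by exact_mod_cast h6)
        rw [hj0, zero_add] at h5
        rw [h5]
        push_cast
        gcongr
        have h7 : ((1 : ℕ) : ℕ∞) ≤ ord w a' := le_ord.2 (by rw [pow_one]; exact h4)
        exact_mod_cast h7
      refine Or.inl ⟨incl _ a', incl _ j, fun h => ha' ((mem_v hw a').2 h), hjQ, ?_⟩
      rw [h3, div_mul_eq_mul_div, div_eq_iff hβ']
      linear_combination hmul _ _ _ _ he
  · obtain ⟨k', hk', j', hj', -, h2'⟩ := exists_coprime' (u := w) hα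
    have hjQ' : incl M j' ∉ Q := fun h => hj' ((mem_v hw j').2 h)
    have hlt : k' + 1 ≤ k := by
      by_contra h4
      apply hαk
      rw [← le_ord, hk']
      exact_mod_cast (by omega : k ≤ k')
    obtain ⟨a', ha', he⟩ := h2' β (by
      rw [← le_ord, hk]
      exact_mod_cast hlt)
    refine Or.inr (Or.inr ⟨incl _ a', (mem_v hw a').1 ha', incl _ j', hjQ', ?_⟩)
    rw [h3, inv_div, div_mul_eq_mul_div, div_eq_iff hα']
    linear_combination hmul _ _ _ _ he

/-- some power of `g` fixes `z` -/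
theorem exists_pow_fix (g : GalK F) (z : AlgebraicClosure F) : ∃ n : ℕ, 0 < n ∧ (g ^ n) z = z := by
  have hfin : (MulAction.orbit (GalK F) z).Finite := by
    have h1 : IsIntegral F z := Algebra.IsIntegral.isIntegral _
    refine (Polynomial.rootSet_finite (minpoly F z) (AlgebraicClosure F)).subset ?_
    rintro _ ⟨g, rfl⟩
    rw [Polynomial.mem_rootSet]
    refine ⟨minpoly.ne_zero h1, ?_⟩
    show Polynomial.aeval (g z) _ = 0
    rw [← minpoly.algEquiv_eq g z]
    exact minpoly.aeval _ _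
  have h2 : ¬ Function.Injective (fun n : ℕ => (⟨(g ^ n) • z, ⟨g ^ n, rfl⟩⟩ :
      MulAction.orbit (GalK F) z)) := by
    have := hfin.to_subtype
    exact not_injective_infinite_finite _
  unfold Function.Injective at h2
  push Not at h2
  obtain ⟨a, b, hab, hne⟩ := h2
  have hab' : (g ^ a) • z = (g ^ b) • z := congrArg Subtype.val hab
  rcases Nat.lt_or_gt_of_ne hne with h | h
  · refine ⟨b - a, by omega, ?_⟩
    have h3 : g ^ b = g ^ a * g ^ (b - a) := by rw [← pow_add]; congr 1; omega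
    rw [h3, mul_smul] at hab'
    exact (smul_left_cancel _ hab').symm
  · refine ⟨a - b, by omega, ?_⟩
    have h3 : g ^ a = g ^ b * g ^ (a - b) := by rw [← pow_add]; congr 1; omega
    rw [h3, mul_smul] at hab'
    exact smul_left_cancel _ hab'

/-- a product of conjugates in the maximal ideal is not `1` -/
theorem not_max {Q : Ideal (Zbar F)} (hQ : Q.IsPrime) {g : GalK F} (hg : g ∈ Dec Q) {z : AlgebraicClosure F}
    (hz : z ≠ 0) : ¬ ∃ a ∈ Q, ∃ d ∉ Q, (g z / z) * (d : AlgebraicClosure F) = a := by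
  rintro ⟨a, ha, d, hd, h⟩
  obtain ⟨n, hn, hgn⟩ := exists_pow_fix g z
  have key : ∀ m : ℕ, 0 < m → ∃ a ∈ Q, ∃ d ∉ Q, ((g ^ m) z / z) * (d : AlgebraicClosure F) = a := by
    intro m hm
    induction m with
    | zero => omega
    | succ m ih =>
      rcases Nat.eq_zero_or_pos m with hm0 | hm0
      · subst hm0
        exact ⟨a, ha, d, hd, by rw [zero_add, pow_one]; exact h⟩
      · obtain ⟨a', ha', d', hd', h'⟩ := ih hm0
        refine ⟨(g ^ m • a) * a', Q.mul_mem_left _ ha', (g ^ m • d) * d', fun h1 => ?_, ?_⟩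
        · rcases hQ.mem_or_mem h1 with h2 | h2
          · exact smul_notMem (pow_mem hg m) hd h2
          · exact hd' h2
        · push_cast
          have h4 := congrArg (g ^ m : GalK F) h
          rw [map_mul, map_div₀] at h4
          have h5 : (g ^ (m + 1)) z = (g ^ m) (g z) := by rw [pow_succ]; rfl
          rw [smul_val, smul_val, h5, ← h4, ← h']
          have h6 : (g ^ m) z ≠ 0 := by
            rw [Ne, map_eq_zero]; exact hz
          field_simp
  obtain ⟨a', ha', d', hd', h'⟩ := key n hn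
  rw [hgn, div_self hz, one_mul] at h'
  apply hd'
  have : d' = a' := Subtype.ext h'
  rw [this]; exact ha'

/-- (VAL) -/
theorem unit_smul {u : HeightOneSpectrum (𝓞 F)} {Q : Ideal (Zbar F)} (hu : Above u Q)
    {g : GalK F} (hg : g ∈ Dec Q) {z : AlgebraicClosure F} (hz : z ≠ 0) : UnitQ Q (g z / z) := by
  have hgz : g z ≠ 0 := by rw [Ne, map_eq_zero]; exact hz
  rcases dich hu (div_ne_zero hgz hz) with h | h | h
  · exact h
  · exact (not_max hu.1 hg hz h).elim
  · have h1 := not_max hu.1 (inv_mem hg) hgz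
    have h2 : g⁻¹ (g z) = z := by
      show (g⁻¹ * g) z = z
      rw [inv_mul_cancel]; rfl
    rw [h2] at h1
    rw [inv_div] at h
    exact (h1 h).elim

section tame

variable {u : HeightOneSpectrum (𝓞 F)} {Q : Ideal (Zbar F)}

theorem c_mul (hu : Above u Q) {i j : GalK F} (hi : Acts Q i 1) (hj : j ∈ Dec Q) {z : AlgebraicClosure F}
    (hz : z ≠ 0) : OneQ Q (((i * j) z / z) / ((i z / z) * (j z / z))) := by
  have h1 := oneQ_act hu.1 hi (unit_smul hu hj hz)
  have hiz : i z ≠ 0 := by rw [Ne, map_eq_zero]; exact hz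
  have hjz : j z ≠ 0 := by rw [Ne, map_eq_zero]; exact hz
  have h2 : ((i * j) z / z) / ((i z / z) * (j z / z)) = i (j z / z) / (j z / z) ^ 1 := by
    rw [map_div₀, pow_one]
    have h3 : (i * j) z = i (j z) := rfl
    rw [h3]
    field_simp
  rw [h2]
  exact h1

theorem acts_pow_one (hQ : Q.IsPrime) {i : GalK F} (hi : Acts Q i 1) (n : ℕ) :
    Acts Q (i ^ n) 1 := by
  have := acts_pow' hQ hi n
  rwa [one_pow] at this

theorem c_pow (hu : Above u Q) {i : GalK F} (hi : Acts Q i 1) (n : ℕ) {z : AlgebraicClosure F}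
    (hz : z ≠ 0) : OneQ Q (((i ^ n) z / z) / (i z / z) ^ n) := by
  have hiz : i z ≠ 0 := by rw [Ne, map_eq_zero]; exact hz
  induction n with
  | zero =>
    rw [pow_zero, pow_zero, div_one]
    have : (1 : GalK F) z / z = 1 := by
      show z / z = 1
      exact div_self hz
    rw [this]
    exact oneQ_one hu.1
  | succ n ih =>
    have h1 := c_mul hu (acts_pow_one hu.1 hi n) (acts_dec hu.1 hi) hz
    rw [← pow_succ] at h1
    have h2 := h1.mul hu.1 ih
    have hinz : (i ^ n) z ≠ 0 := by rw [Ne, map_eq_zero]; exact hz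
    have h3 : ((i ^ (n + 1)) z / z) / (i z / z) ^ (n + 1) =
        ((i ^ (n + 1)) z / z) / (((i ^ n) z / z) * (i z / z)) * (((i ^ n) z / z) / (i z / z) ^ n) := by
      obtain ⟨A, hA⟩ : ∃ A, A = (i ^ (n + 1)) z / z := ⟨_, rfl⟩
      obtain ⟨B, hB⟩ : ∃ B, B = (i ^ n) z / z := ⟨_, rfl⟩
      obtain ⟨C, hC⟩ : ∃ C, C = i z / z := ⟨_, rfl⟩
      rw [← hA, ← hB, ← hC]
      have b2 : B ≠ 0 := by rw [hB]; exact div_ne_zero hinz hz
      have b3 : C ≠ 0 := by rw [hC]; exact div_ne_zero hiz hz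
      rw [pow_succ]
      field_simp
    rw [h3]
    exact h2

theorem c_conj (hu : Above u Q) {i φ : GalK F} {n : ℕ} (hi : Acts Q i 1) (hφ : Acts Q φ n) {z : AlgebraicClosure F}
    (hz : z ≠ 0) : OneQ Q (((φ * i * φ⁻¹) z / z) / (i z / z) ^ n) := by
  have hφD := acts_dec hu.1 hφ
  have hiz : i z ≠ 0 := by rw [Ne, map_eq_zero]; exact hz
  obtain ⟨y, hy⟩ : ∃ y, y = φ⁻¹ z := ⟨_, rfl⟩
  have hy0 : y ≠ 0 := by rw [hy, Ne, map_eq_zero]; exact hz
  have hiy : i y ≠ 0 := by rw [Ne, map_eq_zero]; exact hy0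
  have hφy : φ y = z := by
    rw [hy]
    show (φ * φ⁻¹) z = z
    rw [mul_inv_cancel]; rfl
  have h1 := oneQ_act hu.1 hφ (unit_smul hu (acts_dec hu.1 hi) hy0)
  have h2 : φ (i y / y) = (φ * i * φ⁻¹) z / z := by
    rw [map_div₀, hφy, hy]
    rfl
  rw [h2] at h1
  have h3 := oneQ_act hu.1 hi (unit_smul hu (inv_mem hφD) hz)
  rw [← hy, pow_one, map_div₀] at h3
  have h4 := h1.mul hu.1 (h3.pow hu.1 n)
  have h5 : ((φ * i * φ⁻¹) z / z) / (i z / z) ^ n =
      ((φ * i * φ⁻¹) z / z) / (i y / y) ^ n * (i y / i z / (y / z)) ^ n := by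
    have h6 : (i y / i z / (y / z)) = (i y / y) / (i z / z) := by field_simp
    rw [h6, div_pow (i y / y)]
    have h7 : (i y / y) ^ n ≠ 0 := pow_ne_zero _ (div_ne_zero hiy hy0)
    field_simp
  rw [h5]
  exact h4

theorem mem_PQ_mul {g h : GalK F} (hQ : Q.IsPrime) (hg : g ∈ PQ Q) (hh : h ∈ PQ Q) :
    g * h ∈ PQ Q := by
  refine ⟨by have := acts_mul hQ hg.1 hh.1; rwa [one_mul] at this, fun z hz => ?_⟩
  have hhz : h z ≠ 0 := by rw [Ne, map_eq_zero]; exact hz
  have h1 := (hg.2 (h z) hhz).mul hQ (hh.2 z hz)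
  have h2 : (g * h) z / z = g (h z) / h z * (h z / z) := by
    rw [div_mul_div_cancel₀ hhz]; rfl
  rw [h2]
  exact h1

theorem acts_inv_one (hQ : Q.IsPrime) {g : GalK F} (hg : Acts Q g 1) : Acts Q g⁻¹ 1 := by
  have := acts_inv_mul hQ hg (h := 1) (by intro x; rw [one_smul, pow_one, sub_self]; exact Q.zero_mem)
  rwa [mul_one] at this

theorem mem_PQ_inv {g : GalK F} (hQ : Q.IsPrime) (hg : g ∈ PQ Q) : g⁻¹ ∈ PQ Q := by
  refine ⟨acts_inv_one hQ hg.1, fun z hz => ?_⟩
  obtain ⟨y, hy⟩ : ∃ y, y = g⁻¹ z := ⟨_, rfl⟩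
  have hy0 : y ≠ 0 := by rw [hy, Ne, map_eq_zero]; exact hz
  have hgy : g y = z := by
    rw [hy]
    show (g * g⁻¹) z = z
    rw [mul_inv_cancel]; rfl
  have h1 := (hg.2 y hy0).inv hQ
  rw [inv_div, hgy] at h1
  rw [← hy]
  exact h1

theorem mem_PQ_conj {g x : GalK F} (hx : x ∈ Dec Q) (hg : g ∈ PQ Q) :
    x * g * x⁻¹ ∈ PQ Q := by
  refine ⟨?_, fun z hz => ?_⟩
  · have := acts_conj x hg.1
    rwa [MulAction.mem_stabilizer_iff.1 hx] at this
  · obtain ⟨y, hy⟩ : ∃ y, y = x⁻¹ z := ⟨_, rfl⟩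
    have hy0 : y ≠ 0 := by rw [hy, Ne, map_eq_zero]; exact hz
    have hxy : x y = z := by
      rw [hy]
      show (x * x⁻¹) z = z
      rw [mul_inv_cancel]; rfl
    have h1 := (hg.2 y hy0).smul hx
    rw [map_div₀, hxy, hy] at h1
    exact h1

/-- (TAME) -/
theorem tame (hu : Above u Q) {i φ : GalK F} {n : ℕ} (hi : Acts Q i 1) (hφ : Acts Q φ n) :
    φ * i * φ⁻¹ * (i ^ n)⁻¹ ∈ PQ Q := by
  have hφD := acts_dec hu.1 hφ
  have hin := acts_pow_one hu.1 hi n
  have hci : Acts Q (φ * i * φ⁻¹) 1 := by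
    have := acts_conj φ hi
    rwa [MulAction.mem_stabilizer_iff.1 hφD] at this
  have hw : Acts Q (φ * i * φ⁻¹ * (i ^ n)⁻¹) 1 := by
    have := acts_mul hu.1 hci (acts_inv_one hu.1 hin)
    rwa [one_mul] at this
  refine ⟨hw, fun z hz => ?_⟩
  obtain ⟨w, hwdef⟩ : ∃ w, w = φ * i * φ⁻¹ * (i ^ n)⁻¹ := ⟨_, rfl⟩
  rw [← hwdef] at hw ⊢
  have h1 := c_mul hu hw (acts_dec hu.1 hin) hz
  have h2 : w * i ^ n = φ * i * φ⁻¹ := by rw [hwdef, inv_mul_cancel_right]
  rw [h2] at h1
  have h3 := c_conj hu hi hφ hz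
  have h4 := c_pow hu hi n hz
  have h5 := (h1.inv hu.1).mul hu.1 (h3.mul hu.1 (h4.inv hu.1))
  have a1 : i z ≠ 0 := by rw [Ne, map_eq_zero]; exact hz
  have a2 : (i ^ n) z ≠ 0 := by rw [Ne, map_eq_zero]; exact hz
  have a3 : (φ * i * φ⁻¹) z ≠ 0 := by rw [Ne, map_eq_zero]; exact hz
  have a4 : w z ≠ 0 := by rw [Ne, map_eq_zero]; exact hz
  have h6 : w z / z = ((φ * i * φ⁻¹) z / z / (w z / z * ((i ^ n) z / z)))⁻¹ *
      ((φ * i * φ⁻¹) z / z / (i z / z) ^ n * ((i ^ n) z / z / (i z / z) ^ n)⁻¹) := by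
    have a5 : (i z / z) ^ n ≠ 0 := pow_ne_zero _ (div_ne_zero a1 hz)
    obtain ⟨A, hA⟩ : ∃ A, A = (φ * i * φ⁻¹) z / z := ⟨_, rfl⟩
    obtain ⟨B, hB⟩ : ∃ B, B = (i ^ n) z / z := ⟨_, rfl⟩
    obtain ⟨C, hC⟩ : ∃ C, C = (i z / z) ^ n := ⟨_, rfl⟩
    obtain ⟨W, hW⟩ : ∃ W, W = w z / z := ⟨_, rfl⟩
    rw [← hA, ← hB, ← hC, ← hW]
    have b1 : A ≠ 0 := by rw [hA]; exact div_ne_zero a3 hz
    have b2 : B ≠ 0 := by rw [hB]; exact div_ne_zero a2 hz
    have b3 : C ≠ 0 := by rw [hC]; exact a5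
    have b4 : W ≠ 0 := by rw [hW]; exact div_ne_zero a4 hz
    field_simp
  rw [h6]
  exact h5

end tame

end Pool.Agent.H19.QT
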