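import Pool.Agent.H19.QT.Gen

/-!
# QT.TameDef : the wild inertia group

`PQ Q` : the elements `g` of the inertia group of `Q` such that `g z / z` is `1` in the residue field
of `Q` for all `z ≠ 0`.
-/

set_option autoImplicit false

open scoped Pointwise NumberField
open Matrix IsDedekindDomain Pool.Agent.H71.Patch Pool.Agent.H51.QT

namespace Pool.Agent.H19.QT

variable {F : Type} [Field F] [NumberField F]

/-- `x` is a unit of the localization of the algebraic integers at `Q` -/
def UnitQ (Q : Ideal (Zbar F)) (x : AlgebraicClosure F) : Prop :=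
  ∃ a d : Zbar F, a ∉ Q ∧ d ∉ Q ∧ x * d = a

/-- `x` is a unit of the localization of the algebraic integers at `Q`, congruent to `1` -/
def OneQ (Q : Ideal (Zbar F)) (x : AlgebraicClosure F) : Prop :=
  ∃ a d : Zbar F, d ∉ Q ∧ a - d ∈ Q ∧ x * d = a

/-- the wild inertia group at `Q` -/
def PQ (Q : Ideal (Zbar F)) : Set (GalK F) :=
  {g | Acts Q g 1 ∧ ∀ z : AlgebraicClosure F, z ≠ 0 → OneQ Q (g z / z)}

end Pool.Agent.H19.QT
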