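import Pool.Agent.H19.QT.Tame
import Pool.Agent.H51.QT.VQ

/-!
# QT.TameW : the tame relation, with `Wild`
-/

set_option autoImplicit false

open scoped Pointwise NumberField
open Matrix IsDedekindDomain Pool.Agent.H71.Patch Pool.Agent.H51.QT

namespace Pool.Agent.H19.QT

variable {F : Type} [Field F] [NumberField F]

theorem wild_of_PQ {Q : Ideal (Zbar F)} {g : GalK F} (hg : g ∈ PQ Q) : Wild Q g := by
  intro z hz
  obtain ⟨a, d, hd, had, h⟩ := hg.2 z hz
  refine ⟨a - d, d, hd, had, ?_⟩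
  push_cast
  linear_combination h

/-- (TAME) -/
theorem tame_wild {u : HeightOneSpectrum (𝓞 F)} {Q : Ideal (Zbar F)} (hu : Above u Q)
    {i φ : GalK F} {n : ℕ} (hi : Acts Q i 1) (hφ : Acts Q φ n) :
    Wild Q (φ * i * φ⁻¹ * (i ^ n)⁻¹) :=
  wild_of_PQ (tame hu hi hφ)

end Pool.Agent.H19.QT
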